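import Pool.Agent.R515.NF.Arith

/-!
The main estimate along the rigidity times (MP_442888_an).
-/

open Topology Filter Set

namespace Pool.Agent.R515.NF

lemma term_bound (n m : ℕ) (w : ℝ) :
    |Psi m (w + NN n * ep m) - Psi m w - (if m = n then Psi m (w + 1/2) - Psi m w else 0)|
      ≤ (1/2) ^ m * (1/2) ^ n := by
  rcases lt_trichotomy m n with h | h | h
  · rw [if_neg h.ne, sub_zero]
    obtain ⟨k, τ, h1, h2, h3⟩ := NN_ep_lt h
    rw [h1, ← add_assoc, add_right_comm, Psi_int]
    refine (Psi_lip m _ _).trans ?_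
    rw [show w + τ - w = τ by ring, abs_of_nonneg h2]
    have h4 : (2:ℝ) ^ bb m * τ ≤ 2 ^ bb m * (2 ^ (a m) * (1/2) ^ (a n)) := by gcongr
    refine h4.trans ?_
    rw [← mul_assoc, ← pow_add, ← pow_add]
    apply pow_half
    have h5 := a_ge m
    have h6 := a_add (m + 1) (n - (m + 1))
    rw [show m + 1 + (n - (m + 1)) = n by omega] at h6
    omega
  · subst h
    rw [if_pos rfl]
    obtain ⟨τ, h1, h2, h3⟩ := NN_ep_self m
    rw [h1, show Psi m (w + (1/2 + τ)) - Psi m w - (Psi m (w + 1/2) - Psi m w)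
      = Psi m (w + (1/2 + τ)) - Psi m (w + 1/2) by ring]
    refine (Psi_lip m _ _).trans ?_
    rw [show w + (1/2 + τ) - (w + 1/2) = τ by ring, abs_of_nonneg h2]
    have h4 : (2:ℝ) ^ bb m * τ ≤ 2 ^ bb m * (2 ^ (a (m + 1)) * (1/2) ^ (a (m + 2))) := by gcongr
    refine h4.trans ?_
    rw [← mul_assoc, ← pow_add, ← pow_add]
    apply pow_half
    have h5 := a_ge m
    have h6 := a_ge (m + 1)
    rw [show m + 1 + 1 = m + 2 by omega] at h6
    omega
  · rw [if_neg h.ne', sub_zero]
    have h1 := NN_ep_gt h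
    refine (Psi_lip m _ _).trans ?_
    rw [show w + NN n * ep m - w = NN n * ep m by ring, abs_of_nonneg (by have := ep_pos m; positivity)]
    have h4 : (2:ℝ) ^ bb m * (NN n * ep m) ≤ 2 ^ bb m * (2 ^ (2 * a m) * (1/2) ^ (a (m + 1))) := by gcongr
    refine h4.trans ?_
    rw [← mul_assoc, ← pow_add, ← pow_add]
    apply pow_half
    have h5 := a_ge m
    omega

/-- the sum of the increments at time `NN n` is nearly the `n`-th increment -/
theorem claim1 (n : ℕ) (w : ℕ → ℝ) :
    |∑' m, (Psi m (w m + NN n * ep m) - Psi m (w m)) - (Psi n (w n + 1/2) - Psi n (w n))|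
      ≤ 2 * (1/2) ^ n := by
  set R : ℕ → ℝ := fun m => if m = n then Psi m (w m + 1/2) - Psi m (w m) else 0 with hR
  set T : ℕ → ℝ := fun m => Psi m (w m + NN n * ep m) - Psi m (w m) with hT
  have hb : ∀ m, ‖T m - R m‖ ≤ (1/2) ^ m * (1/2) ^ n := fun m => term_bound n m (w m)
  have hs : Summable (fun m : ℕ => (1/2:ℝ) ^ m * (1/2) ^ n) := summable_geometric_two.mul_right _
  have hTR : Summable (fun m => T m - R m) := Summable.of_norm_bounded hs hb
  have hRs : HasSum R (Psi n (w n + 1/2) - Psi n (w n)) := by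
    have := hasSum_single (f := R) n (by intro m hm; simp [hR, hm])
    simpa [hR] using this
  have hTs : Summable T := by
    have := hTR.add hRs.summable
    simpa using this
  have h1 : ∑' m, T m - (Psi n (w n + 1/2) - Psi n (w n)) = ∑' m, (T m - R m) := by
    rw [hTs.tsum_sub hRs.summable, hRs.tsum_eq]
  show |∑' m, T m - (Psi n (w n + 1/2) - Psi n (w n))| ≤ _
  rw [h1, ← Real.norm_eq_abs]
  refine (tsum_of_norm_bounded hs.hasSum hb).trans (le_of_eq ?_)
  rw [tsum_mul_right, tsum_geometric_two]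

/-- increments along the flow are summable -/
lemma summable_incr (w : ℕ → ℝ) (t : ℝ) : Summable (fun m => Psi m (w m + t * ep m) - Psi m (w m)) := by
  have hs : Summable (fun m : ℕ => (1/2:ℝ) ^ m * |t|) := summable_geometric_two.mul_right _
  apply Summable.of_norm_bounded hs
  intro m
  refine (Psi_lip m _ _).trans ?_
  rw [show w m + t * ep m - w m = t * ep m by ring, abs_mul, abs_of_pos (ep_pos m)]
  have h1 := bb_ep_le m 0 (by omega)
  simp only [pow_zero, mul_one] at h1
  have h2 : ((1:ℝ)/2) ^ (m + 4) ≤ (1/2) ^ m :=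
    pow_le_pow_of_le_one (by norm_num) (by norm_num) (by omega)
  have h3 := abs_nonneg t
  calc (2:ℝ) ^ bb m * (|t| * ep m) = (2 ^ bb m * ep m) * |t| := by ring
    _ ≤ (1/2) ^ m * |t| := by gcongr; linarith

end Pool.Agent.R515.NF
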