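import Pool.Agent.R515.NF.UE2
import Pool.Agent.R515.NF.Diag

/-!
The time-change function and its integrals along the flow (MP_442888_an).
-/

open MeasureTheory Topology Filter Set
open scoped ContDiff

namespace Pool.Agent.R515.NF

open Heis

/-- `W_n(x,y,z) = 2^{a_n} x - p_n y` -/
noncomputable def W (n : ℕ) (g : Heis) : ℝ := 2 ^ (a n) * g.1 - pn n * g.2.1

lemma W_mul (n : ℕ) (g h : Heis) : W n (g * h) = W n g + W n h := by
  unfold W; simp only [mul_1, mul_21]; ring

lemma W_Γ (n : ℕ) {γ : Heis} (hγ : γ ∈ Γ) : ∃ k : ℤ, W n γ = k := by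
  obtain ⟨x, y, z, rfl⟩ := hγ
  refine ⟨2 ^ (a n) * x - pn n * y, ?_⟩
  unfold W; simp

lemma W_gt (n : ℕ) (t : ℝ) : W n (gt th t) = t * ep n := by
  unfold W gt
  simp only [mk'_1, mk'_21]
  rw [← ep_eq]; ring

lemma W_zc (n : ℕ) (c : ℝ) : W n (zc c) = 0 := by
  unfold W zc; simp

lemma W_sx (n : ℕ) (u : ℝ) : W n (sx u) = 2 ^ (a n) * u := by
  unfold W sx; simp

lemma cont_W (n : ℕ) : Continuous (W n) := by
  unfold W
  exact (continuous_const.mul cont_1).sub (continuous_const.mul cont_21)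

/-- lift a `Γ`-invariant function to `M` -/
noncomputable def liftM {β : Type*} (f : Heis → β) (h : ∀ g, ∀ γ ∈ Γ, f (g * γ) = f g) : M → β :=
  Quotient.lift f (by
    intro g g' hgg
    have h1 : g⁻¹ * g' ∈ Γ := QuotientGroup.leftRel_apply.mp hgg
    have h2 := h g _ h1
    rw [← h2]; congr 1; group)

lemma liftM_pr {β : Type*} (f : Heis → β) (h : ∀ g, ∀ γ ∈ Γ, f (g * γ) = f g) (g : Heis) :
    liftM f h (pr g) = f g := rfl

lemma cont_liftM {β : Type*} [TopologicalSpace β] {f : Heis → β} (hf : Continuous f)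
    (h : ∀ g, ∀ γ ∈ Γ, f (g * γ) = f g) : Continuous (liftM f h) := continuous_quot_lift _ hf

/-- `u_n = Psi_n(W_n)` on `M` -/
noncomputable def uu (n : ℕ) : M → ℝ := liftM (fun g => Psi n (W n g)) (by
  intro g γ hγ
  obtain ⟨k, hk⟩ := W_Γ n hγ
  rw [W_mul, hk, Psi_int])

lemma uu_pr (n : ℕ) (g : Heis) : uu n (pr g) = Psi n (W n g) := rfl

lemma cont_Psi (n : ℕ) : Continuous (Psi n) := (contDiff_Psi n (k := 0)).continuous

lemma cont_uu (n : ℕ) : Continuous (uu n) := cont_liftM ((cont_Psi n).comp (cont_W n)) _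

/-- derivative of `Psi n` -/
noncomputable def dP (n : ℕ) (w : ℝ) : ℝ := deriv (Psi n) w

lemma dP_periodic (n : ℕ) : Function.Periodic (dP n) 1 := by
  have := iteratedDeriv_Psi_periodic n 1
  intro x
  have h := this x
  rw [iteratedDeriv_one] at h
  exact h

lemma dP_int (n : ℕ) (w : ℝ) (k : ℤ) : dP n (w + k) = dP n w := by
  have := (dP_periodic n).int_mul k w
  simpa using this

lemma dP_bound (n : ℕ) (w : ℝ) : ‖dP n w‖ ≤ 2 ^ (bb n) := by
  have := bb_spec n (k := 1) (by omega) w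
  rwa [iteratedDeriv_one] at this

lemma contDiff_dP (n : ℕ) : ContDiff ℝ ∞ (dP n) := by
  have h : ContDiff ℝ (∞ + 1) (Psi n) := contDiff_Psi n (k := ⊤)
  exact (contDiff_succ_iff_deriv.mp h).2.2

lemma iteratedDeriv_dP (n k : ℕ) : iteratedDeriv k (dP n) = iteratedDeriv (k + 1) (Psi n) := by
  rw [iteratedDeriv_succ']; rfl

lemma term_small (n : ℕ) (w : ℝ) : ‖ep n * dP n w‖ ≤ (1/2) ^ (n + 4) := by
  rw [norm_mul, Real.norm_of_nonneg (ep_pos n).le]
  have h1 := bb_ep_le n 0 (by omega)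
  simp only [pow_zero, mul_one] at h1
  have h2 := dP_bound n w
  have h3 := (ep_pos n).le
  nlinarith

lemma summable_geo4 : Summable (fun n : ℕ => (1/2:ℝ) ^ (n + 4)) := by
  have := summable_geometric_two.mul_right ((1/2:ℝ)^4)
  refine this.congr fun n => ?_
  rw [pow_add]

lemma tsum_geo4 : ∑' n : ℕ, (1/2:ℝ) ^ (n + 4) = 1/8 := by
  have : ∀ n : ℕ, (1/2:ℝ) ^ (n + 4) = (1/2)^n * (1/2)^4 := fun n => pow_add _ _ _
  rw [tsum_congr this, tsum_mul_right, tsum_geometric_two]; norm_num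

/-- the time-change function upstairs -/
noncomputable def al0 (g : Heis) : ℝ := 1 + ∑' n, ep n * dP n (W n g)

lemma al0_inv (g : Heis) (γ : Heis) (hγ : γ ∈ Γ) : al0 (g * γ) = al0 g := by
  unfold al0
  congr 1
  refine tsum_congr fun n => ?_
  obtain ⟨k, hk⟩ := W_Γ n hγ
  rw [W_mul, hk, dP_int]

/-- the time-change function -/
noncomputable def al : M → ℝ := liftM al0 al0_inv

lemma al_pr (g : Heis) : al (pr g) = al0 g := rfl

lemma al0_bound (g : Heis) : |al0 g - 1| ≤ 1/8 := by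
  unfold al0
  rw [add_sub_cancel_left, ← Real.norm_eq_abs, ← tsum_geo4]
  exact tsum_of_norm_bounded summable_geo4.hasSum fun n => term_small n _

lemma al_lower (p : M) : 1/2 ≤ al p := by
  obtain ⟨g, rfl⟩ := pr_surj p
  have := abs_le.mp (al0_bound g)
  rw [al_pr]; linarith [this.1]

lemma al_upper (p : M) : al p ≤ 2 := by
  obtain ⟨g, rfl⟩ := pr_surj p
  have := abs_le.mp (al0_bound g)
  rw [al_pr]; linarith [this.2]

lemma cont_al0 : Continuous al0 := by
  unfold al0
  refine continuous_const.add ?_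
  apply continuous_tsum (u := fun n : ℕ => (1/2:ℝ) ^ (n + 4)) _ summable_geo4
    (fun n g => term_small n _)
  intro n
  exact continuous_const.mul ((contDiff_dP n).continuous.comp (cont_W n))

lemma cont_al : Continuous al := cont_liftM cont_al0 _

/-- the linear functional `W_n` -/
noncomputable def Wl (n : ℕ) : (ℝ × ℝ × ℝ) →L[ℝ] ℝ :=
  (2 ^ (a n) : ℝ) • ContinuousLinearMap.fst ℝ ℝ (ℝ × ℝ)
    - (pn n : ℝ) • ((ContinuousLinearMap.fst ℝ ℝ ℝ).comp (ContinuousLinearMap.snd ℝ ℝ (ℝ × ℝ)))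

lemma Wl_apply (n : ℕ) (v : ℝ × ℝ × ℝ) : Wl n v = 2 ^ (a n) * v.1 - pn n * v.2.1 := by
  simp [Wl]

lemma Wl_norm (n : ℕ) : ‖Wl n‖ ≤ 2 ^ (a n + 1) := by
  apply ContinuousLinearMap.opNorm_le_bound _ (by positivity)
  intro v
  rw [Wl_apply]
  have h1 : |v.1| ≤ ‖v‖ := by rw [← Real.norm_eq_abs]; exact norm_fst_le v
  have h2 : |v.2.1| ≤ ‖v‖ := by
    rw [← Real.norm_eq_abs]; exact (norm_fst_le v.2).trans (norm_snd_le v)
  have h3 := pn_le n
  have h4 : (0:ℝ) ≤ pn n := by exact_mod_cast pn_nonneg n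
  have h5 : (0:ℝ) < 2 ^ (a n) := by positivity
  calc ‖2 ^ (a n) * v.1 - pn n * v.2.1‖ ≤ ‖2 ^ (a n) * v.1‖ + ‖(pn n : ℝ) * v.2.1‖ := norm_sub_le _ _
    _ = 2 ^ (a n) * |v.1| + pn n * |v.2.1| := by
        rw [norm_mul, norm_mul, Real.norm_of_nonneg h5.le, Real.norm_of_nonneg h4]; rfl
    _ ≤ 2 ^ (a n) * ‖v‖ + 2 ^ (a n) * ‖v‖ := by gcongr
    _ = 2 ^ (a n + 1) * ‖v‖ := by rw [pow_succ]; ring

/-- the time-change function is smooth -/
lemma contDiff_al : ContDiff ℝ ∞ (fun v : ℝ × ℝ × ℝ => al (pr (mk' v.1 v.2.1 v.2.2))) := by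
  have h0 : (fun v : ℝ × ℝ × ℝ => al (pr (mk' v.1 v.2.1 v.2.2)))
      = fun v => 1 + ∑' n, ep n * dP n (Wl n v) := by
    funext v
    rw [al_pr]
    unfold al0
    have : ∀ n, W n (mk' v.1 v.2.1 v.2.2) = Wl n v := fun n => by rw [Wl_apply]; rfl
    simp only [this]
  rw [h0]
  refine contDiff_const.add ?_
  have hterm : ∀ n, ContDiff ℝ ∞ (fun v : ℝ × ℝ × ℝ => ep n * dP n (Wl n v)) := fun n =>
    contDiff_const.mul ((contDiff_dP n).comp (Wl n).contDiff)
  apply contDiff_tsum_of_eventually (v := fun _ n => (1/2:ℝ) ^ (n + 4)) hterm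
    (fun _ _ => summable_geo4)
  intro k _
  rw [Nat.cofinite_eq_atTop]
  filter_upwards [eventually_ge_atTop k] with n hn v
  have h1 : (fun v : ℝ × ℝ × ℝ => ep n * dP n (Wl n v)) = fun v => ep n • (dP n ∘ Wl n) v := by
    funext v; rfl
  have hcd : ContDiff ℝ k (dP n) := (contDiff_dP n).of_le (by exact_mod_cast le_top)
  rw [h1, iteratedFDeriv_const_smul_apply' (hcd.comp (Wl n).contDiff).contDiffAt, norm_smul,
    (Wl n).iteratedFDeriv_comp_right hcd v le_rfl]
  have h2 : ‖(iteratedFDeriv ℝ k (dP n) (Wl n v)).compContinuousLinearMap fun _ => Wl n‖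
      ≤ ‖iteratedFDeriv ℝ k (dP n) (Wl n v)‖ * ‖Wl n‖ ^ k := by
    have := ContinuousMultilinearMap.norm_compContinuousLinearMap_le
      (iteratedFDeriv ℝ k (dP n) (Wl n v)) (fun _ : Fin k => Wl n)
    simpa using this
  have h3 : ‖iteratedFDeriv ℝ k (dP n) (Wl n v)‖ ≤ 2 ^ (bb n) := by
    rw [norm_iteratedFDeriv_eq_norm_iteratedDeriv, iteratedDeriv_dP]
    exact bb_spec n (by omega) _
  have h4 : ‖Wl n‖ ^ k ≤ (2 ^ (a n + 1)) ^ k := by
    gcongr; exact Wl_norm n
  have h5 := bb_ep_le n k hn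
  have h6 := (ep_pos n).le
  rw [Real.norm_of_nonneg h6]
  calc ep n * ‖(iteratedFDeriv ℝ k (dP n) (Wl n v)).compContinuousLinearMap fun _ => Wl n‖
      ≤ ep n * (2 ^ (bb n) * (2 ^ (a n + 1)) ^ k) := by
        gcongr
        exact h2.trans (mul_le_mul h3 h4 (by positivity) (by positivity))
    _ = 2 ^ (bb n) * ep n * (2 ^ (a n + 1)) ^ k := by ring
    _ ≤ _ := h5

/-- the increment `∑ (u_n(φ_t p) - u_n(p))` -/
noncomputable def UU (t : ℝ) (p : M) : ℝ := ∑' n, (uu n (nilflow th t p) - uu n p)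

lemma nilflow_pr (t : ℝ) (g : Heis) : nilflow th t (pr g) = pr (gt th t * g) := rfl

lemma uu_flow (n : ℕ) (t : ℝ) (g : Heis) :
    uu n (nilflow th t (pr g)) = Psi n (W n g + t * ep n) := by
  rw [nilflow_pr, uu_pr, W_mul, W_gt, add_comm]

lemma UU_pr (t : ℝ) (g : Heis) :
    UU t (pr g) = ∑' n, (Psi n (W n g + t * ep n) - Psi n (W n g)) := by
  unfold UU
  refine tsum_congr fun n => ?_
  rw [uu_flow, uu_pr]

lemma summable_UU (t : ℝ) (p : M) : Summable (fun n => uu n (nilflow th t p) - uu n p) := by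
  obtain ⟨g, rfl⟩ := pr_surj p
  simp only [uu_flow, uu_pr]
  exact summable_incr (fun n => W n g) t

lemma integral_al (t : ℝ) (p : M) : ∫ r in (0:ℝ)..t, al (nilflow th r p) = t + UU t p := by
  obtain ⟨g, rfl⟩ := pr_surj p
  have h1 : ∀ r, al (nilflow th r (pr g)) = 1 + ∑' n, ep n * dP n (W n g + r * ep n) := by
    intro r
    rw [nilflow_pr, al_pr]
    unfold al0
    congr 1
    refine tsum_congr fun n => ?_
    rw [W_mul, W_gt, add_comm]
  simp only [h1]
  have hc : Continuous (fun r : ℝ => ∑' n, ep n * dP n (W n g + r * ep n)) := by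
    apply continuous_tsum (u := fun n : ℕ => (1/2:ℝ) ^ (n + 4)) _ summable_geo4
      (fun n r => term_small n _)
    intro n
    exact continuous_const.mul ((contDiff_dP n).continuous.comp (by fun_prop))
  rw [intervalIntegral.integral_add (by simp) (hc.intervalIntegrable _ _)]
  congr 1
  · simp
  rw [UU_pr]
  have h2 := intervalIntegral.hasSum_integral_of_dominated_convergence
    (μ := volume) (a := 0) (b := t)
    (F := fun n (r : ℝ) => ep n * dP n (W n g + r * ep n))
    (f := fun r : ℝ => ∑' n, ep n * dP n (W n g + r * ep n))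
    (bound := fun n _ => (1/2:ℝ) ^ (n + 4))
    (fun n => (continuous_const.mul ((contDiff_dP n).continuous.comp (by fun_prop))).aestronglyMeasurable)
    (fun n => Filter.Eventually.of_forall fun r _ => term_small n _)
    (Filter.Eventually.of_forall fun r _ => summable_geo4)
    (by simp)
    (Filter.Eventually.of_forall fun r _ =>
      (Summable.of_norm_bounded summable_geo4 fun n => term_small n _).hasSum)
  rw [← h2.tsum_eq]
  refine tsum_congr fun n => ?_
  have h3 : ∀ r ∈ Set.uIcc (0:ℝ) t, HasDerivAt (fun r => Psi n (W n g + r * ep n))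
      (ep n * dP n (W n g + r * ep n)) r := by
    intro r _
    have hd : HasDerivAt (Psi n) (dP n (W n g + r * ep n)) (W n g + r * ep n) :=
      ((contDiff_Psi n (k := 1)).differentiable (by simp) _).hasDerivAt
    have hi : HasDerivAt (fun r : ℝ => W n g + r * ep n) (ep n) r := by
      have := ((hasDerivAt_id r).mul_const (ep n)).const_add (W n g)
      simpa using this
    have := hd.comp r hi
    rw [mul_comm]; exact this
  rw [intervalIntegral.integral_eq_sub_of_hasDerivAt h3]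
  · simp
  · apply Continuous.intervalIntegrable
    exact continuous_const.mul ((contDiff_dP n).continuous.comp (by fun_prop))

end Pool.Agent.R515.NF
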