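import Mathlib

/-!
Arithmetic of the Liouville slope and the functions `Psi n` (MP_442888_an).
-/

open Topology Filter Set

namespace Pool.Agent.R515.NF

/-- `Psi n w = S(2^n sin(2π w))` -/
noncomputable def Psi (n : ℕ) (w : ℝ) : ℝ := Real.smoothTransition (2 ^ n * Real.sin (2 * Real.pi * w))

lemma contDiff_Psi (n : ℕ) {k : ℕ∞} : ContDiff ℝ k (Psi n) := by
  unfold Psi
  exact Real.smoothTransition.contDiff.comp (by fun_prop)

lemma Psi_periodic (n : ℕ) (w : ℝ) : Psi n (w + 1) = Psi n w := by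
  unfold Psi
  rw [show 2 * Real.pi * (w + 1) = 2 * Real.pi * w + 2 * Real.pi by ring, Real.sin_add_two_pi]

lemma Psi_int (n : ℕ) (w : ℝ) (k : ℤ) : Psi n (w + k) = Psi n w := by
  have h : Function.Periodic (Psi n) 1 := Psi_periodic n
  have := h.int_mul k w
  simpa using this

lemma Psi_zero {n : ℕ} {w : ℝ} (h : Real.sin (2 * Real.pi * w) ≤ 0) : Psi n w = 0 := by
  unfold Psi
  apply Real.smoothTransition.zero_of_nonpos
  have : (0:ℝ) < 2 ^ n := by positivity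
  nlinarith

lemma Psi_one {n : ℕ} {w : ℝ} (h : (1/2:ℝ)^n ≤ Real.sin (2 * Real.pi * w)) : Psi n w = 1 := by
  unfold Psi
  apply Real.smoothTransition.one_of_one_le
  have h1 : (0:ℝ) < 2 ^ n := by positivity
  have h2 : (2:ℝ) ^ n * (1/2) ^ n = 1 := by rw [← mul_pow]; norm_num
  nlinarith

lemma Psi_half (n : ℕ) (w : ℝ) :
    Psi n (w + 1/2) = Real.smoothTransition (-(2 ^ n * Real.sin (2 * Real.pi * w))) := by
  unfold Psi
  rw [show 2 * Real.pi * (w + 1/2) = 2 * Real.pi * w + Real.pi by ring, Real.sin_add_pi]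
  congr 1; ring

lemma sin_half (w : ℝ) : Real.sin (2 * Real.pi * (w + 1/2)) = - Real.sin (2 * Real.pi * w) := by
  rw [show 2 * Real.pi * (w + 1/2) = 2 * Real.pi * w + Real.pi by ring, Real.sin_add_pi]

lemma iteratedDeriv_Psi_periodic (n k : ℕ) :
    Function.Periodic (iteratedDeriv k (Psi n)) 1 := by
  intro x
  have h1 : (fun z => Psi n (z + 1)) = Psi n := by funext z; exact Psi_periodic n z
  have h2 := iteratedDeriv_comp_add_const k (Psi n) 1
  rw [h1] at h2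
  exact (congrFun h2 x).symm

lemma exists_bound_one (n k : ℕ) : ∃ B : ℝ, ∀ w, ‖iteratedDeriv k (Psi n) w‖ ≤ B := by
  have hc : Continuous (iteratedDeriv k (Psi n)) :=
    (contDiff_Psi n (k := (k : ℕ∞))).continuous_iteratedDeriv k le_rfl
  obtain ⟨B, hB⟩ := (isCompact_Icc (a := (0:ℝ)) (b := 1)).exists_bound_of_continuousOn hc.continuousOn
  refine ⟨B, fun w => ?_⟩
  have h1 : iteratedDeriv k (Psi n) w = iteratedDeriv k (Psi n) (Int.fract w) := by
    have h2 := (iteratedDeriv_Psi_periodic n k).int_mul (⌊w⌋) (Int.fract w)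
    rw [mul_one, Int.fract_add_floor] at h2
    exact h2
  rw [h1]
  exact hB _ ⟨Int.fract_nonneg w, (Int.fract_lt_one w).le⟩

lemma exists_bound (n : ℕ) : ∃ b : ℕ, ∀ k ≤ n + 2, ∀ w, ‖iteratedDeriv k (Psi n) w‖ ≤ 2 ^ b := by
  choose B hB using exists_bound_one n
  obtain ⟨b, hb⟩ : ∃ b : ℕ, ∀ k ∈ Finset.range (n + 3), B k ≤ 2 ^ b := by
    obtain ⟨c, hc⟩ := exists_nat_gt (∑ k ∈ Finset.range (n + 3), |B k|)
    refine ⟨c, fun k hk => ?_⟩
    have h1 : |B k| ≤ ∑ k ∈ Finset.range (n + 3), |B k| :=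
      Finset.single_le_sum (f := fun k => |B k|) (fun _ _ => abs_nonneg _) hk
    have h2 : (c : ℝ) < 2 ^ c := by exact_mod_cast Nat.lt_two_pow_self
    linarith [le_abs_self (B k)]
  exact ⟨b, fun k hk w => (hB k w).trans (hb k (Finset.mem_range.mpr (by omega)))⟩

/-- exponent bounding the derivatives of `Psi n` -/
noncomputable def bb (n : ℕ) : ℕ := (exists_bound n).choose

lemma bb_spec (n : ℕ) {k : ℕ} (hk : k ≤ n + 2) (w : ℝ) :
    ‖iteratedDeriv k (Psi n) w‖ ≤ 2 ^ (bb n) := (exists_bound n).choose_spec k hk w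

lemma Psi_lip (n : ℕ) (x y : ℝ) : |Psi n x - Psi n y| ≤ 2 ^ (bb n) * |x - y| := by
  have h := Convex.norm_image_sub_le_of_norm_deriv_le (f := Psi n) (s := Set.univ) (x := y) (y := x)
    (C := 2 ^ (bb n)) (fun z _ => (contDiff_Psi n (k := 1)).differentiable (by simp) z)
    (fun z _ => by
      have := bb_spec n (k := 1) (by omega) z
      rwa [iteratedDeriv_one] at this) convex_univ trivial trivial
  simpa [Real.norm_eq_abs] using h

/-- exponents -/
noncomputable def a : ℕ → ℕ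
  | 0 => 1
  | n + 1 => bb n + (n + 3) * (a n + 2) + 2 * n + 4

lemma a_succ (n : ℕ) : a (n + 1) = bb n + (n + 3) * (a n + 2) + 2 * n + 4 := rfl

lemma a_ge (n : ℕ) : bb n + 3 * a n + 2 * n + 10 ≤ a (n + 1) := by
  rw [a_succ]; nlinarith

lemma a_ge' (n : ℕ) : n + 1 ≤ a n := by
  induction n with
  | zero => simp [a]
  | succ n ih => have := a_ge n; omega

lemma a_add (n k : ℕ) : a n + k ≤ a (n + k) := by
  induction k with
  | zero => simp
  | succ k ih =>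
    have := a_ge (n + k)
    rw [← add_assoc n k 1]
    omega

lemma a_mono {m n : ℕ} (h : m ≤ n) : a m ≤ a n := by
  obtain ⟨k, rfl⟩ := Nat.exists_eq_add_of_le h
  have := a_add m k
  omega

lemma pow_half {b c d : ℕ} (h : b + d ≤ c) : (2:ℝ) ^ b * (1/2) ^ c ≤ (1/2) ^ d := by
  obtain ⟨e, rfl⟩ := Nat.exists_eq_add_of_le h
  have h1 : (2:ℝ) ^ b * (1/2) ^ (b + d + e) = (2 * (1/2)) ^ b * ((1/2) ^ d * (1/2) ^ e) := by
    rw [mul_pow, pow_add, pow_add]; ring
  rw [h1]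
  have h2 : ((1:ℝ)/2) ^ e ≤ 1 := pow_le_one₀ (by norm_num) (by norm_num)
  have h3 : (0:ℝ) ≤ (1/2) ^ d := by positivity
  norm_num
  norm_num at h2 h3
  nlinarith

lemma two_mul_half (n : ℕ) : (2:ℝ) ^ n * (1/2) ^ n = 1 := by rw [← mul_pow]; norm_num

lemma two_sub {m n : ℕ} (h : n ≤ m) : (2:ℝ) ^ m * (1/2) ^ n = 2 ^ (m - n) := by
  obtain ⟨k, rfl⟩ := Nat.exists_eq_add_of_le h
  rw [pow_add, Nat.add_sub_cancel_left, mul_right_comm, two_mul_half, one_mul]

/-- tails -/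
lemma summable_tail (n : ℕ) : Summable (fun k => (1/2:ℝ) ^ (a (n + k))) := by
  apply Summable.of_nonneg_of_le (fun k => by positivity) (fun k => ?_)
    (summable_geometric_two)
  exact pow_le_pow_of_le_one (by norm_num) (by norm_num) (by have := a_add n k; omega)

/-- `tl n = ∑_{k ≥ n} 2^{-a_k}` -/
noncomputable def tl (n : ℕ) : ℝ := ∑' k, (1/2:ℝ) ^ (a (n + k))

lemma tl_pos (n : ℕ) : 0 < tl n := (summable_tail n).tsum_pos (fun k => by positivity) 0 (by positivity)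

lemma tl_le (n : ℕ) : tl n ≤ 2 * (1/2) ^ (a n) := by
  have h1 : ∀ k, (1/2:ℝ) ^ (a (n + k)) ≤ (1/2) ^ (a n) * (1/2) ^ k := by
    intro k
    rw [← pow_add]
    exact pow_le_pow_of_le_one (by norm_num) (by norm_num) (a_add n k)
  have h2 : tl n ≤ ∑' k : ℕ, (1/2:ℝ) ^ (a n) * (1/2) ^ k :=
    (summable_tail n).tsum_le_tsum h1 (summable_geometric_two.mul_left _)
  rw [tsum_mul_left, tsum_geometric_two] at h2
  linarith

lemma tl_succ (n : ℕ) : tl n = (1/2) ^ (a n) + tl (n + 1) := by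
  unfold tl
  rw [(summable_tail n).tsum_eq_zero_add]
  simp only [add_zero]
  congr 1
  refine tsum_congr fun k => ?_
  rw [show n + (k + 1) = n + 1 + k by ring]

lemma tl_split (m n : ℕ) : tl m = ∑ k ∈ Finset.range n, (1/2:ℝ) ^ (a (m + k)) + tl (m + n) := by
  induction n with
  | zero => simp
  | succ n ih => rw [ih, Finset.sum_range_succ, tl_succ (m + n)]; ring_nf

/-- the slope -/
noncomputable def th : ℝ := tl 0

/-- denominators `2^{a_n}`, numerators -/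
noncomputable def pn (n : ℕ) : ℤ := ∑ k ∈ Finset.range (n + 1), (2:ℤ) ^ (a n - a k)

/-- `ε_n = q_n θ - p_n = 2^{a_n} tl (n+1)` -/
noncomputable def ep (n : ℕ) : ℝ := 2 ^ (a n) * tl (n + 1)

lemma ep_pos (n : ℕ) : 0 < ep n := mul_pos (by positivity) (tl_pos _)

lemma ep_eq (n : ℕ) : 2 ^ (a n) * th - pn n = ep n := by
  unfold th ep pn
  rw [tl_split 0 (n + 1)]
  push_cast
  rw [mul_add, Finset.mul_sum]
  have : ∑ k ∈ Finset.range (n + 1), (2:ℝ) ^ (a n) * (1/2) ^ (a (0 + k))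
      = ∑ k ∈ Finset.range (n + 1), (2:ℝ) ^ (a n - a k) := by
    refine Finset.sum_congr rfl fun k hk => ?_
    rw [zero_add, two_sub (a_mono (by have := Finset.mem_range.mp hk; omega))]
  rw [this, zero_add]; ring

lemma ep_le (n : ℕ) : ep n ≤ 2 ^ (a n + 1) * (1/2) ^ (a (n + 1)) := by
  unfold ep
  have := tl_le (n + 1)
  have h2 : (0:ℝ) < 2 ^ (a n) := by positivity
  calc (2:ℝ) ^ (a n) * tl (n + 1) ≤ 2 ^ (a n) * (2 * (1/2) ^ (a (n + 1))) := by gcongr
    _ = _ := by rw [pow_succ]; ring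

lemma th_pos : 0 < th := tl_pos 0

lemma th_le : th ≤ 1 := by
  have := tl_le 0
  have h : a 0 = 1 := rfl
  rw [h] at this
  unfold th; linarith

lemma pn_nonneg (n : ℕ) : 0 ≤ pn n := Finset.sum_nonneg fun _ _ => by positivity

lemma pn_le (n : ℕ) : (pn n : ℝ) ≤ 2 ^ (a n) := by
  have h1 := ep_eq n
  have h2 := ep_pos n
  have h3 := th_le
  have h4 : (0:ℝ) < 2 ^ (a n) := by positivity
  nlinarith

/-- times of rigidity -/
noncomputable def NN (n : ℕ) : ℕ := 2 ^ (a (n + 1) - a n - 1)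

lemma NN_cast (n : ℕ) : (NN n : ℝ) = 2 ^ (a (n + 1)) * (1/2) ^ (a n + 1) := by
  unfold NN
  have := a_ge n
  rw [two_sub (by omega)]
  push_cast
  congr 1

lemma NN_ep_self (n : ℕ) : ∃ τ : ℝ, NN n * ep n = 1/2 + τ ∧ 0 ≤ τ ∧
    τ ≤ 2 ^ (a (n + 1)) * (1/2) ^ (a (n + 2)) := by
  refine ⟨2 ^ (a (n + 1)) * (1/2) * tl (n + 2), ?_, ?_, ?_⟩
  · rw [NN_cast]
    unfold ep
    rw [tl_succ (n + 1)]
    have h1 := two_mul_half (a (n + 1))
    have h2 := two_mul_half (a n)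
    have : (2:ℝ) ^ a (n + 1) * (1 / 2) ^ (a n + 1) * (2 ^ a n * ((1 / 2) ^ a (n + 1) + tl (n + 1 + 1)))
      = (2 ^ a n * (1/2) ^ a n) * (1/2) * (2 ^ a (n+1) * (1/2) ^ a (n + 1))
        + (2 ^ a n * (1/2) ^ a n) * (2 ^ a (n+1) * (1/2) * tl (n + 2)) := by
      rw [pow_succ]; ring
    rw [this, h1, h2]; ring
  · have := tl_pos (n + 2); positivity
  · have := tl_le (n + 2)
    have h2 : (0:ℝ) < 2 ^ (a (n + 1)) := by positivity
    nlinarith

lemma NN_ep_lt {m n : ℕ} (h : m < n) : ∃ (k : ℤ) (τ : ℝ), NN n * ep m = k + τ ∧ 0 ≤ τ ∧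
    τ ≤ 2 ^ (a m) * (1/2) ^ (a n) := by
  obtain ⟨d, rfl⟩ : ∃ d, n = m + 1 + d := ⟨n - (m + 1), by omega⟩
  set n := m + 1 + d with hn
  refine ⟨∑ k ∈ Finset.range (d + 1), (2:ℤ) ^ (a (n + 1) + a m - (a n + 1) - a (m + 1 + k)),
    NN n * 2 ^ (a m) * tl (n + 1), ?_, ?_, ?_⟩
  · unfold ep
    rw [tl_split (m + 1) (d + 1), show m + 1 + (d + 1) = n + 1 by omega]
    push_cast
    rw [mul_add, mul_add, Finset.mul_sum, Finset.mul_sum]
    congr 1
    · refine Finset.sum_congr rfl fun k hk => ?_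
      have hk' := Finset.mem_range.mp hk
      have h1 : a (m + 1 + k) ≤ a n := a_mono (by omega)
      have h2 := a_ge n
      rw [NN_cast, ← two_sub (by omega), ← two_sub (by omega), pow_add]
      ring
    · ring
  · have := tl_pos (n + 1); positivity
  · have h1 := tl_le (n + 1)
    have h3 : (NN n : ℝ) * 2 ^ (a m) * tl (n + 1) ≤ NN n * 2 ^ (a m) * (2 * (1/2) ^ (a (n + 1))) := by
      gcongr
    refine h3.trans (le_of_eq ?_)
    rw [NN_cast]
    have h2 := two_mul_half (a (n + 1))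
    have : (2:ℝ) ^ a (n + 1) * (1 / 2) ^ (a n + 1) * 2 ^ a m * (2 * (1 / 2) ^ a (n + 1))
      = (2 ^ a (n + 1) * (1/2) ^ a (n + 1)) * (2 ^ a m * (1/2) ^ a n) := by
      rw [pow_succ]; ring
    rw [this, h2, one_mul]

lemma NN_ep_gt {m n : ℕ} (h : n < m) : NN n * ep m ≤ 2 ^ (2 * a m) * (1/2) ^ (a (m + 1)) := by
  have h1 := ep_le m
  have h2 : (NN n : ℝ) * 2 ≤ 2 ^ (a m) := by
    unfold NN
    push_cast
    rw [← pow_succ]
    have h3 : a (n + 1) ≤ a m := a_mono (by omega)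
    have h4 := a_ge n
    exact pow_le_pow_right₀ (by norm_num) (by omega)
  calc (NN n : ℝ) * ep m ≤ NN n * (2 ^ (a m + 1) * (1/2) ^ (a (m + 1))) := by gcongr
    _ = (NN n * 2) * (2 ^ (a m) * (1/2) ^ (a (m + 1))) := by rw [pow_succ]; ring
    _ ≤ 2 ^ (a m) * (2 ^ (a m) * (1/2) ^ (a (m + 1))) := by gcongr
    _ = _ := by rw [two_mul (a m), pow_add]; ring

lemma NN_th (n : ℕ) : ∃ (k : ℤ) (τ : ℝ), NN n * th = k + τ ∧ 0 ≤ τ ∧ τ ≤ (1/2) ^ (a n) := by
  refine ⟨∑ k ∈ Finset.range (n + 1), (2:ℤ) ^ (a (n + 1) - (a n + 1) - a k),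
    NN n * tl (n + 1), ?_, ?_, ?_⟩
  · unfold th
    rw [tl_split 0 (n + 1), show 0 + (n + 1) = n + 1 by omega, mul_add, Finset.mul_sum]
    push_cast
    congr 1
    refine Finset.sum_congr rfl fun k hk => ?_
    have hk' := Finset.mem_range.mp hk
    have h1 : a k ≤ a n := a_mono (by omega)
    have h2 := a_ge n
    rw [NN_cast, ← two_sub (by omega), ← two_sub (by omega), zero_add]
  · have := tl_pos (n + 1); positivity
  · have h1 := tl_le (n + 1)
    have h3 : (NN n : ℝ) * tl (n + 1) ≤ NN n * (2 * (1/2) ^ (a (n + 1))) := by gcongr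
    refine h3.trans (le_of_eq ?_)
    rw [NN_cast]
    have h2 := two_mul_half (a (n + 1))
    have : (2:ℝ) ^ a (n + 1) * (1 / 2) ^ (a n + 1) * (2 * (1 / 2) ^ a (n + 1))
      = (2 ^ a (n + 1) * (1/2) ^ a (n + 1)) * (1/2) ^ a n := by
      rw [pow_succ]; ring
    rw [this, h2, one_mul]

/-- summability and smallness -/
lemma bb_ep_le (n k : ℕ) (hk : k ≤ n) :
    2 ^ (bb n) * ep n * (2 ^ (a n + 1)) ^ k ≤ (1/2) ^ (n + 4) := by
  have h1 := ep_le n
  have h2 : (2:ℝ) ^ (bb n) * ep n * (2 ^ (a n + 1)) ^ k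
      ≤ 2 ^ (bb n) * (2 ^ (a n + 1) * (1/2) ^ (a (n + 1))) * (2 ^ (a n + 1)) ^ k := by gcongr
  refine h2.trans ?_
  have h3 : (2:ℝ) ^ (bb n) * (2 ^ (a n + 1) * (1/2) ^ (a (n + 1))) * (2 ^ (a n + 1)) ^ k
    = 2 ^ (bb n + (a n + 1) + (a n + 1) * k) * (1/2) ^ (a (n + 1)) := by
    rw [← pow_mul, pow_add, pow_add]; ring
  rw [h3]
  apply pow_half
  rw [a_succ]
  nlinarith

lemma irrational_th : Irrational th := by
  rintro ⟨r, hr⟩
  -- `ε_n = (2^{a_n} r.num - p_n r.den)/r.den ≥ 1/r.den`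
  have h1 : ∀ n, 1 / (r.den : ℝ) ≤ ep n := by
    intro n
    have h2 := ep_eq n
    rw [← hr] at h2
    have hden : (0:ℝ) < r.den := by exact_mod_cast r.den_pos
    have h3 : (r : ℝ) = r.num / r.den := by exact_mod_cast (Rat.num_div_den r).symm
    have h4 : ep n = ((2 ^ (a n) * r.num - pn n * r.den : ℤ) : ℝ) / r.den := by
      rw [← h2, h3]; push_cast; field_simp
    have h5 := ep_pos n
    rw [h4] at h5 ⊢
    have h6 : (0:ℝ) < ((2 ^ (a n) * r.num - pn n * r.den : ℤ) : ℝ) := by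
      rcases div_pos_iff.mp h5 with h | h
      · exact h.1
      · linarith [h.2]
    have h7 : (1:ℝ) ≤ ((2 ^ (a n) * r.num - pn n * r.den : ℤ) : ℝ) := by
      have : (0:ℤ) < 2 ^ (a n) * r.num - pn n * r.den := by exact_mod_cast h6
      exact_mod_cast this
    gcongr
  have h2 : Tendsto ep atTop (𝓝 0) := by
    refine squeeze_zero (fun n => (ep_pos n).le) (g := fun n => (1/2:ℝ) ^ n) ?_
      (tendsto_pow_atTop_nhds_zero_of_lt_one (by norm_num) (by norm_num))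
    intro n
    have h3 := bb_ep_le n 0 (by omega)
    have h4 : (1:ℝ) ≤ 2 ^ (bb n) := one_le_pow₀ (by norm_num)
    have h5 := (ep_pos n).le
    have h6 : ((1:ℝ)/2) ^ (n + 4) ≤ (1/2) ^ n :=
      pow_le_pow_of_le_one (by norm_num) (by norm_num) (by omega)
    simp only [pow_zero, mul_one] at h3
    nlinarith
  have h3 := ge_of_tendsto' h2 h1
  have hden : (0:ℝ) < r.den := by exact_mod_cast r.den_pos
  have : 0 < 1 / (r.den : ℝ) := by positivity
  linarith

end Pool.Agent.R515.NF
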