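import Pool.Agent.R515.NF.Alpha

/-!
The measurable eigenfunction of the time change (MP_442888_an).
-/

open MeasureTheory Topology Filter Set
open scoped ENNReal

namespace Pool.Agent.R515.NF

open Heis

/-! ### measure of the set where `u_n` is not an integer -/

/-- the band set -/
def Bd (n k : ℕ) : Set M :=
  {p | ∃ g, pr g = p ∧ ∃ j : ℤ, |2 * W n g - j - k * (1/2) ^ n| < (1/2) ^ n / 2}

lemma Bd_pr (n k : ℕ) (g : Heis) :
    pr g ∈ Bd n k ↔ ∃ j : ℤ, |2 * W n g - j - k * (1/2) ^ n| < (1/2) ^ n / 2 := by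
  constructor
  · rintro ⟨h, hh, j, hj⟩
    obtain ⟨γ, hγ, rfl⟩ := pr_eq_iff.mp hh
    obtain ⟨i, hi⟩ := W_Γ n hγ
    refine ⟨j + 2 * i, ?_⟩
    rw [W_mul, hi]
    push_cast
    convert hj using 2
    ring
  · rintro ⟨j, hj⟩; exact ⟨g, rfl, j, hj⟩

lemma isOpen_Bd (n k : ℕ) : IsOpen (Bd n k) := by
  have h : Bd n k = pr '' {g | ∃ j : ℤ, |2 * W n g - j - k * (1/2) ^ n| < (1/2) ^ n / 2} := by
    ext p
    constructor
    · rintro ⟨g, rfl, h⟩; exact ⟨g, h, rfl⟩
    · rintro ⟨g, h, rfl⟩; exact ⟨g, rfl, h⟩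
  rw [h]
  apply isOpenMap_pr
  have : {g | ∃ j : ℤ, |2 * W n g - j - k * (1/2) ^ n| < (1/2) ^ n / 2}
    = ⋃ j : ℤ, {g | |2 * W n g - j - k * (1/2) ^ n| < (1/2) ^ n / 2} := by
    ext g; simp
  rw [this]
  refine isOpen_iUnion fun j => ?_
  have hc := cont_W n
  exact isOpen_lt (by fun_prop) continuous_const

lemma Bd_measure (n k : ℕ) : μH (Bd n k) = μH (Bd n 0) := by
  have h : (fun p : M => sx (k * (1/2) ^ n / 2 / 2 ^ (a n)) • p) ⁻¹' (Bd n k) = Bd n 0 := by
    ext p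
    obtain ⟨g, rfl⟩ := pr_surj p
    rw [Set.mem_preimage, smul_pr, Bd_pr, Bd_pr, W_mul, W_sx]
    have e : (2:ℝ) ^ (a n) * (k * (1/2) ^ n / 2 / 2 ^ (a n)) = k * (1/2) ^ n / 2 := by
      field_simp
    rw [e]
    constructor
    · rintro ⟨j, hj⟩
      refine ⟨j, ?_⟩
      convert hj using 2
      push_cast; ring
    · rintro ⟨j, hj⟩
      refine ⟨j, ?_⟩
      convert hj using 2
      push_cast; ring
  rw [← h, (measurePreserving_smul _ μH).measure_preimage (isOpen_Bd n k).measurableSet.nullMeasurableSet]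

lemma Bd_disjoint (n : ℕ) : Set.PairwiseDisjoint (↑(Finset.range (2 ^ n)) : Set ℕ) (Bd n) := by
  intro k hk k' hk' hne
  rw [Function.onFun, Set.disjoint_left]
  intro p hp hp'
  obtain ⟨g, rfl⟩ := pr_surj p
  obtain ⟨j, hj⟩ := (Bd_pr n k g).mp hp
  obtain ⟨j', hj'⟩ := (Bd_pr n k' g).mp hp'
  apply hne
  simp only [Finset.coe_range, Set.mem_Iio] at hk hk'
  have h2 : (2:ℝ) ^ n * (1/2) ^ n = 1 := two_mul_half n
  have hpos : (0:ℝ) < 2 ^ n := by positivity
  have h1 : |((j:ℝ) - j') + ((k:ℝ) - k') * (1/2) ^ n| < (1/2) ^ n := by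
    rw [abs_lt] at hj hj' ⊢
    constructor <;> linarith [hj.1, hj.2, hj'.1, hj'.2]
  have h3 : |((j:ℝ) - j') * 2 ^ n + ((k:ℝ) - k')| < 1 := by
    have e : ((j:ℝ) - j') * 2 ^ n + ((k:ℝ) - k')
      = 2 ^ n * (((j:ℝ) - j') + ((k:ℝ) - k') * (1/2) ^ n) := by
      linear_combination (-((k:ℝ) - k')) * h2
    rw [e, abs_mul, abs_of_pos hpos]
    calc 2 ^ n * |((j:ℝ) - j') + ((k:ℝ) - k') * (1/2) ^ n| < 2 ^ n * (1/2) ^ n :=
          mul_lt_mul_of_pos_left h1 hpos
      _ = 1 := h2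
  have h4 : (j - j') * 2 ^ n + ((k:ℤ) - k') = 0 := by
    have h5 : |(j - j') * 2 ^ n + ((k:ℤ) - k')| < 1 := by
      have : ((|(j - j') * 2 ^ n + ((k:ℤ) - k')| : ℤ) : ℝ) < 1 := by
        push_cast; exact h3
      exact_mod_cast this
    rw [← Int.abs_lt_one_iff]; exact h5
  have h6 : j = j' := by
    by_contra hjj
    have h7 : (1:ℤ) ≤ |j - j'| := Int.one_le_abs (sub_ne_zero.mpr hjj)
    have h8 : |(k:ℤ) - k'| < 2 ^ n := by
      rw [abs_lt]
      have a1 : (k:ℤ) < 2 ^ n := by exact_mod_cast hk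
      have a2 : (k':ℤ) < 2 ^ n := by exact_mod_cast hk'
      constructor <;> omega
    have h9 : |(k:ℤ) - k'| = |j - j'| * 2 ^ n := by
      have : (k:ℤ) - k' = -((j - j') * 2 ^ n) := by linarith
      rw [this, abs_neg, abs_mul, abs_of_pos (by positivity : (0:ℤ) < 2 ^ n)]
    rw [h9] at h8
    have : (0:ℤ) < 2 ^ n := by positivity
    nlinarith
  rw [h6, sub_self, zero_mul, zero_add] at h4
  omega

lemma Bd_le (n : ℕ) : μH (Bd n 0) ≤ ENNReal.ofReal ((1/2) ^ n) := by
  have h1 : ∑ k ∈ Finset.range (2 ^ n), μH (Bd n k) ≤ 1 := by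
    rw [← measure_biUnion_finset (Bd_disjoint n) (fun k _ => (isOpen_Bd n k).measurableSet)]
    exact prob_le_one
  simp only [Bd_measure n, Finset.sum_const, Finset.card_range, nsmul_eq_mul] at h1
  have h2 : ENNReal.ofReal ((1/2:ℝ) ^ n) = ((2 ^ n : ℕ) : ℝ≥0∞)⁻¹ := by
    rw [← ENNReal.ofReal_natCast, ← ENNReal.ofReal_inv_of_pos (by positivity)]
    congr 1; push_cast; rw [one_div, inv_pow]
  rw [h2]
  rw [ENNReal.le_inv_iff_mul_le]
  rw [mul_comm]; exact h1

lemma sin_inv (n : ℕ) (g : Heis) {γ : Heis} (hγ : γ ∈ Γ) :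
    Real.sin (2 * Real.pi * W n (g * γ)) = Real.sin (2 * Real.pi * W n g) := by
  obtain ⟨i, hi⟩ := W_Γ n hγ
  rw [W_mul, hi, show 2 * Real.pi * (W n g + i) = 2 * Real.pi * W n g + i * (2 * Real.pi) by ring,
    Real.sin_add_int_mul_two_pi]

/-- `sin(2π W_n)` on `M` -/
noncomputable def sn (n : ℕ) : M → ℝ := liftM (fun g => Real.sin (2 * Real.pi * W n g))
  (fun g _ hγ => sin_inv n g hγ)

lemma sn_pr (n : ℕ) (g : Heis) : sn n (pr g) = Real.sin (2 * Real.pi * W n g) := rfl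

lemma cont_sn (n : ℕ) : Continuous (sn n) :=
  cont_liftM (Real.continuous_sin.comp (continuous_const.mul (cont_W n))) _

lemma sn_small_subset (n : ℕ) : {p | |sn n p| < (1/2) ^ n} ⊆ Bd n 0 := by
  intro p hp
  obtain ⟨g, rfl⟩ := pr_surj p
  rw [Set.mem_ofPred_eq, sn_pr] at hp
  rw [Bd_pr]
  refine ⟨round (2 * W n g), ?_⟩
  set d := 2 * W n g - round (2 * W n g) with hd
  have hd1 : |d| ≤ 1/2 := abs_sub_round _
  have h1 : |Real.sin (2 * Real.pi * W n g)| = |Real.sin (Real.pi * d)| := by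
    have : 2 * Real.pi * W n g = Real.pi * d + (round (2 * W n g) : ℤ) * Real.pi := by
      rw [hd]; ring
    rw [this, Real.sin_add_int_mul_pi, abs_mul, abs_zpow, abs_neg, abs_one, one_zpow, one_mul]
  have h2 : 2 * |d| ≤ |Real.sin (Real.pi * d)| := by
    have h3 : Real.sin (Real.pi * |d|) ≤ |Real.sin (Real.pi * d)| := by
      rcases abs_cases d with ⟨h, _⟩ | ⟨h, _⟩
      · rw [h]; exact le_abs_self _
      · rw [h, mul_neg, Real.sin_neg]; exact neg_le_abs _
    have h4 := Real.mul_le_sin (x := Real.pi * |d|) (by positivity)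
      (by have := Real.pi_pos; nlinarith)
    have h5 : 2 / Real.pi * (Real.pi * |d|) = 2 * |d| := by
      have := Real.pi_pos.ne'; field_simp
    linarith
  rw [h1] at hp
  simp only [Nat.cast_zero, zero_mul, sub_zero]
  linarith

lemma sn_small_measure (n : ℕ) : μH {p | |sn n p| < (1/2) ^ n} ≤ ENNReal.ofReal ((1/2) ^ n) :=
  (measure_mono (sn_small_subset n)).trans (Bd_le n)

lemma uu_cases (n : ℕ) (p : M) (h : ¬ |sn n p| < (1/2) ^ n) : uu n p = 0 ∨ uu n p = 1 := by
  obtain ⟨g, rfl⟩ := pr_surj p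
  rw [sn_pr] at h
  rw [uu_pr]
  push Not at h
  rcases le_abs.mp h with h1 | h1
  · exact Or.inr (Psi_one h1)
  · left
    apply Psi_zero
    have : (0:ℝ) < (1/2) ^ n := by positivity
    linarith

lemma ae_uu_int : ∀ᵐ p ∂μH, ∀ᶠ n in atTop, uu n p = 0 ∨ uu n p = 1 := by
  have h : (∑' n, μH {p | |sn n p| < (1/2) ^ n}) ≠ ∞ := by
    have h1 : ∑' n, μH {p | |sn n p| < (1/2) ^ n} ≤ ∑' n : ℕ, ENNReal.ofReal ((1/2) ^ n) :=
      ENNReal.tsum_le_tsum sn_small_measure
    have h2 : ∑' n : ℕ, ENNReal.ofReal ((1/2) ^ n) ≠ ∞ :=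
      summable_geometric_two.tsum_ofReal_ne_top
    exact ne_top_of_le_ne_top h2 h1
  filter_upwards [ae_eventually_notMem h] with p hp
  filter_upwards [hp] with n hn
  exact uu_cases n p hn

/-! ### the eigenfunction -/

/-- `e(y)` on `M` -/
noncomputable def ey : M → ℂ := liftM (fun g => ee g.2.1) (by
  rintro g _ ⟨x, y, z, rfl⟩
  simp only [mul_21, mk'_21]
  rw [ee_add, ee_int, mul_one])

lemma ey_pr (g : Heis) : ey (pr g) = ee g.2.1 := rfl

lemma cont_ey : Continuous ey := cont_liftM (cont_ee.comp cont_21) _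

/-- partial products -/
noncomputable def PP (k : ℕ) (p : M) : ℂ := ee (∑ n ∈ Finset.range k, uu n p)

lemma cont_PP (k : ℕ) : Continuous (PP k) :=
  cont_ee.comp (continuous_finsetSum _ fun n _ => cont_uu n)

/-- the set of convergence -/
def Good : Set M := {p | ∃ l, Tendsto (fun k => PP k p) atTop (𝓝 l)}

lemma measurableSet_Good : MeasurableSet Good :=
  MeasureTheory.measurableSet_exists_tendsto fun k => (cont_PP k).measurable

open Classical in
/-- the infinite product -/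
noncomputable def F0 (p : M) : ℂ := if h : p ∈ Good then h.choose else 0

lemma F0_spec {p : M} (h : p ∈ Good) : Tendsto (fun k => PP k p) atTop (𝓝 (F0 p)) := by
  unfold F0
  rw [dif_pos h]
  exact h.choose_spec

lemma F0_eq {p : M} {l : ℂ} (h : Tendsto (fun k => PP k p) atTop (𝓝 l)) : F0 p = l :=
  tendsto_nhds_unique (F0_spec ⟨l, h⟩) h

lemma F0_bad {p : M} (h : p ∉ Good) : F0 p = 0 := by
  unfold F0; rw [dif_neg h]

lemma measurable_F0 : Measurable F0 := by
  have h : ∀ k, Measurable (Good.indicator (PP k)) := fun k =>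
    (cont_PP k).measurable.indicator measurableSet_Good
  apply measurable_of_tendsto_metrizable h
  rw [tendsto_pi_nhds]
  intro p
  by_cases hp : p ∈ Good
  · simp only [Set.indicator_of_mem hp]
    exact F0_spec hp
  · simp only [Set.indicator_of_notMem hp]
    rw [F0_bad hp]
    exact tendsto_const_nhds

lemma PP_flow (k : ℕ) (t : ℝ) (p : M) :
    PP k (nilflow th t p) = PP k p * ee (∑ n ∈ Finset.range k, (uu n (nilflow th t p) - uu n p)) := by
  unfold PP
  rw [← ee_add, Finset.sum_sub_distrib]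
  congr 1; ring

lemma tend_flow (t : ℝ) (p : M) :
    Tendsto (fun k => ee (∑ n ∈ Finset.range k, (uu n (nilflow th t p) - uu n p))) atTop
      (𝓝 (ee (UU t p))) :=
  (cont_ee.tendsto _).comp (summable_UU t p).hasSum.tendsto_sum_nat

lemma good_flow {t : ℝ} {p : M} {l : ℂ} (h : Tendsto (fun k => PP k p) atTop (𝓝 l)) :
    Tendsto (fun k => PP k (nilflow th t p)) atTop (𝓝 (l * ee (UU t p))) := by
  simp only [PP_flow]
  exact h.mul (tend_flow t p)

lemma nilflow_neg (t : ℝ) (p : M) : nilflow th (-t) (nilflow th t p) = p := by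
  unfold nilflow
  rw [smul_smul, ← gt_add, neg_add_cancel, gt_zero, one_smul]

lemma F0_flow (t : ℝ) (p : M) : F0 (nilflow th t p) = F0 p * ee (UU t p) := by
  by_cases hp : p ∈ Good
  · exact F0_eq (good_flow (F0_spec hp))
  · have : nilflow th t p ∉ Good := by
      rintro ⟨l, hl⟩
      apply hp
      have := good_flow (t := -t) hl
      rw [nilflow_neg] at this
      exact ⟨_, this⟩
    rw [F0_bad hp, F0_bad this, zero_mul]

/-- the eigenfunction -/
noncomputable def FF (p : M) : ℂ := ey p * F0 p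

lemma measurable_FF : Measurable FF := cont_ey.measurable.mul measurable_F0

lemma ey_flow (t : ℝ) (p : M) : ey (nilflow th t p) = ey p * ee t := by
  obtain ⟨g, rfl⟩ := pr_surj p
  rw [nilflow_pr, ey_pr, ey_pr, mul_21]
  show ee (t + g.2.1) = _
  rw [ee_add, mul_comm]

lemma FF_flow (t : ℝ) (p : M) :
    FF (nilflow th t p) = FF p * ee (∫ r in (0:ℝ)..t, al (nilflow th r p)) := by
  unfold FF
  rw [ey_flow, F0_flow, integral_al, ee_add]; ring

lemma norm_ey (p : M) : ‖ey p‖ = 1 := by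
  obtain ⟨g, rfl⟩ := pr_surj p
  rw [ey_pr, norm_ee]

lemma norm_FF_good {p : M} (h : p ∈ Good) : ‖FF p‖ = 1 := by
  unfold FF
  rw [norm_mul, norm_ey, one_mul]
  have h1 := (F0_spec h).norm
  have h2 : (fun k => ‖PP k p‖) = fun _ => 1 := by funext k; exact norm_ee _
  rw [h2] at h1
  exact tendsto_nhds_unique h1 tendsto_const_nhds

lemma ae_good : ∀ᵐ p ∂μH, p ∈ Good := by
  filter_upwards [ae_uu_int] with p hp
  obtain ⟨K, hK⟩ := eventually_atTop.mp hp
  refine ⟨PP K p, ?_⟩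
  apply tendsto_const_nhds.congr'
  filter_upwards [eventually_ge_atTop K] with k hk
  induction k, hk using Nat.le_induction with
  | base => rfl
  | succ k hk ih =>
    rw [ih]
    unfold PP
    rw [Finset.sum_range_succ, ee_add]
    have : ee (uu k p) = 1 := by
      rcases hK k hk with h | h
      · rw [h, ee_zero]
      · rw [h]; exact_mod_cast ee_int 1
    rw [this, mul_one]

end Pool.Agent.R515.NF
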