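import Mathlib

/-!
The Heisenberg group and its standard nilmanifold (MP_442888_an).
-/

open MeasureTheory Topology Filter Set

namespace Pool.Agent.R515.NF

/-- The Heisenberg group: the triple `(x, y, z)` stands for the upper triangular unipotent
matrix `[[1, y, z], [0, 1, x], [0, 0, 1]]`. -/
def Heis : Type := ℝ × ℝ × ℝ

namespace Heis

instance : TopologicalSpace Heis := inferInstanceAs (TopologicalSpace (ℝ × ℝ × ℝ))
instance : MeasurableSpace Heis := inferInstanceAs (MeasurableSpace (ℝ × ℝ × ℝ))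
instance : BorelSpace Heis := inferInstanceAs (BorelSpace (ℝ × ℝ × ℝ))
instance : PolishSpace Heis := inferInstanceAs (PolishSpace (ℝ × ℝ × ℝ))
instance : SecondCountableTopology Heis := inferInstanceAs (SecondCountableTopology (ℝ × ℝ × ℝ))
instance : T2Space Heis := inferInstanceAs (T2Space (ℝ × ℝ × ℝ))

/-- matrix multiplication: `(x,y,z)(x',y',z') = (x+x', y+y', z+z'+y x')` -/
noncomputable instance : Group Heis where
  mul g h := (g.1 + h.1, g.2.1 + h.2.1, g.2.2 + h.2.2 + g.2.1 * h.1)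
  one := (0, 0, 0)
  inv g := (-g.1, -g.2.1, -g.2.2 + g.2.1 * g.1)
  mul_assoc a b c := by
    show ((_, _, _) : ℝ × ℝ × ℝ) = (_, _, _)
    refine Prod.ext ?_ (Prod.ext ?_ ?_)
    · show a.1 + b.1 + c.1 = a.1 + (b.1 + c.1); ring
    · show a.2.1 + b.2.1 + c.2.1 = a.2.1 + (b.2.1 + c.2.1); ring
    · show a.2.2 + b.2.2 + a.2.1 * b.1 + c.2.2 + (a.2.1 + b.2.1) * c.1
        = a.2.2 + (b.2.2 + c.2.2 + b.2.1 * c.1) + a.2.1 * (b.1 + c.1); ring
  one_mul a := by
    refine Prod.ext ?_ (Prod.ext ?_ ?_)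
    · show 0 + a.1 = a.1; ring
    · show 0 + a.2.1 = a.2.1; ring
    · show 0 + a.2.2 + 0 * a.1 = a.2.2; ring
  mul_one a := by
    refine Prod.ext ?_ (Prod.ext ?_ ?_)
    · show a.1 + 0 = a.1; ring
    · show a.2.1 + 0 = a.2.1; ring
    · show a.2.2 + 0 + a.2.1 * 0 = a.2.2; ring
  inv_mul_cancel a := by
    refine Prod.ext ?_ (Prod.ext ?_ ?_)
    · show -a.1 + a.1 = 0; ring
    · show -a.2.1 + a.2.1 = 0; ring
    · show -a.2.2 + a.2.1 * a.1 + a.2.2 + -a.2.1 * a.1 = 0; ring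

/-- constructor -/
def mk' (x y z : ℝ) : Heis := (x, y, z)

lemma mul_def (g h : Heis) :
    g * h = mk' (g.1 + h.1) (g.2.1 + h.2.1) (g.2.2 + h.2.2 + g.2.1 * h.1) := rfl

lemma inv_def (g : Heis) : g⁻¹ = mk' (-g.1) (-g.2.1) (-g.2.2 + g.2.1 * g.1) := rfl

lemma one_def : (1 : Heis) = mk' 0 0 0 := rfl

@[simp] lemma mul_1 (g h : Heis) : (g * h).1 = g.1 + h.1 := rfl
@[simp] lemma mul_21 (g h : Heis) : (g * h).2.1 = g.2.1 + h.2.1 := rfl
@[simp] lemma mul_22 (g h : Heis) : (g * h).2.2 = g.2.2 + h.2.2 + g.2.1 * h.1 := rfl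
@[simp] lemma mk'_1 (x y z : ℝ) : (mk' x y z).1 = x := rfl
@[simp] lemma mk'_21 (x y z : ℝ) : (mk' x y z).2.1 = y := rfl
@[simp] lemma mk'_22 (x y z : ℝ) : (mk' x y z).2.2 = z := rfl
@[simp] lemma one_1 : (1 : Heis).1 = 0 := rfl
@[simp] lemma one_21 : (1 : Heis).2.1 = 0 := rfl
@[simp] lemma one_22 : (1 : Heis).2.2 = 0 := rfl
@[simp] lemma inv_1 (g : Heis) : (g⁻¹).1 = -g.1 := rfl
@[simp] lemma inv_21 (g : Heis) : (g⁻¹).2.1 = -g.2.1 := rfl
@[simp] lemma inv_22 (g : Heis) : (g⁻¹).2.2 = -g.2.2 + g.2.1 * g.1 := rfl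

lemma ext' {g h : Heis} (h1 : g.1 = h.1) (h2 : g.2.1 = h.2.1) (h3 : g.2.2 = h.2.2) : g = h :=
  Prod.ext h1 (Prod.ext h2 h3)

lemma cont_1 : Continuous (fun g : Heis => g.1) :=
  (continuous_fst : Continuous (fun g : ℝ × ℝ × ℝ => g.1))
lemma cont_21 : Continuous (fun g : Heis => g.2.1) :=
  (continuous_fst.comp continuous_snd : Continuous (fun g : ℝ × ℝ × ℝ => g.2.1))
lemma cont_22 : Continuous (fun g : Heis => g.2.2) :=
  (continuous_snd.comp continuous_snd : Continuous (fun g : ℝ × ℝ × ℝ => g.2.2))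

lemma cont_mk' {X : Type*} [TopologicalSpace X] {a b c : X → ℝ} (ha : Continuous a)
    (hb : Continuous b) (hc : Continuous c) : Continuous (fun x => mk' (a x) (b x) (c x)) :=
  (ha.prodMk (hb.prodMk hc) : Continuous (fun x => (a x, b x, c x)))

instance : IsTopologicalGroup Heis where
  continuous_mul := by
    have h1 := cont_1.comp (continuous_fst : Continuous (Prod.fst : Heis × Heis → Heis))
    have h2 := cont_21.comp (continuous_fst : Continuous (Prod.fst : Heis × Heis → Heis))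
    have h3 := cont_22.comp (continuous_fst : Continuous (Prod.fst : Heis × Heis → Heis))
    have k1 := cont_1.comp (continuous_snd : Continuous (Prod.snd : Heis × Heis → Heis))
    have k2 := cont_21.comp (continuous_snd : Continuous (Prod.snd : Heis × Heis → Heis))
    have k3 := cont_22.comp (continuous_snd : Continuous (Prod.snd : Heis × Heis → Heis))
    exact cont_mk' (h1.add k1) (h2.add k2) ((h3.add k3).add (h2.mul k1))
  continuous_inv := cont_mk' cont_1.neg cont_21.neg (cont_22.neg.add (cont_21.mul cont_1))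

end Heis

open Heis

/-- The lattice of integer points of the Heisenberg group. -/
noncomputable def Γ : Subgroup Heis where
  carrier := {g | ∃ a b c : ℤ, g = mk' a b c}
  mul_mem' := by
    rintro _ _ ⟨a, b, c, rfl⟩ ⟨a', b', c', rfl⟩
    refine ⟨a + a', b + b', c + c' + b * a', ?_⟩
    apply Heis.ext' <;> simp
  one_mem' := ⟨0, 0, 0, by apply Heis.ext' <;> simp⟩
  inv_mem' := by
    rintro _ ⟨a, b, c, rfl⟩
    refine ⟨-a, -b, -c + b * a, ?_⟩
    apply Heis.ext' <;> simp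

lemma mem_Γ {g : Heis} : g ∈ Γ ↔ ∃ a b c : ℤ, g = mk' a b c := Iff.rfl

/-- The Heisenberg nilmanifold (the space of cosets `gΓ`). -/
abbrev M : Type := Heis ⧸ Γ

/-- the projection -/
noncomputable def pr (g : Heis) : M := QuotientGroup.mk g

lemma cont_pr : Continuous pr := continuous_quotient_mk'

lemma smul_pr (g h : Heis) : g • pr h = pr (g * h) := rfl

lemma pr_eq_iff {g h : Heis} : pr g = pr h ↔ ∃ γ ∈ Γ, h = g * γ := by
  unfold pr
  rw [QuotientGroup.eq]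
  constructor
  · intro h1; exact ⟨_, h1, by group⟩
  · rintro ⟨γ, hγ, rfl⟩; simpa using hγ

lemma pr_surj (p : M) : ∃ g, pr g = p := QuotientGroup.mk_surjective p

instance : Countable Γ := by
  have : Function.Surjective (fun v : ℤ × ℤ × ℤ => (⟨mk' v.1 v.2.1 v.2.2, ⟨_, _, _, rfl⟩⟩ : Γ)) := by
    rintro ⟨g, a, b, c, rfl⟩
    exact ⟨(a, b, c), rfl⟩
  exact this.countable

lemma isClosed_Γ : IsClosed (Γ : Set Heis) := by
  have h : (Γ : Set Heis) = (fun g : Heis => g.1) ⁻¹' (Set.range ((↑) : ℤ → ℝ)) ∩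
      ((fun g : Heis => g.2.1) ⁻¹' (Set.range ((↑) : ℤ → ℝ)) ∩
      (fun g : Heis => g.2.2) ⁻¹' (Set.range ((↑) : ℤ → ℝ))) := by
    ext g
    constructor
    · rintro ⟨a, b, c, rfl⟩
      exact ⟨⟨a, rfl⟩, ⟨b, rfl⟩, ⟨c, rfl⟩⟩
    · rintro ⟨⟨a, ha⟩, ⟨b, hb⟩, ⟨c, hc⟩⟩
      exact ⟨a, b, c, Heis.ext' ha.symm hb.symm hc.symm⟩
  rw [h]
  have hZ : IsClosed (Set.range ((↑) : ℤ → ℝ)) := Int.isClosedEmbedding_coe_real.isClosed_range
  exact (hZ.preimage cont_1).inter ((hZ.preimage cont_21).inter (hZ.preimage cont_22))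

lemma isOpenMap_pr : IsOpenMap pr := QuotientGroup.isOpenMap_coe

instance : T2Space M := by
  constructor
  intro p q hpq
  obtain ⟨g, rfl⟩ := pr_surj p
  obtain ⟨h, rfl⟩ := pr_surj q
  have hgh : g⁻¹ * h ∉ Γ := by
    intro hc
    exact hpq (QuotientGroup.eq.mpr hc)
  have hcont : Continuous (fun v : Heis × Heis => v.1⁻¹ * v.2) := by fun_prop
  have hopen : IsOpen ((fun v : Heis × Heis => v.1⁻¹ * v.2) ⁻¹' (Γ : Set Heis)ᶜ) :=
    isClosed_Γ.isOpen_compl.preimage hcont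
  have hmem : (g, h) ∈ (fun v : Heis × Heis => v.1⁻¹ * v.2) ⁻¹' (Γ : Set Heis)ᶜ := hgh
  obtain ⟨U, V, hU, hV, hgU, hhV, hUV⟩ := isOpen_prod_iff.mp hopen g h hmem
  refine ⟨pr '' U, pr '' V, isOpenMap_pr U hU, isOpenMap_pr V hV, ⟨g, hgU, rfl⟩, ⟨h, hhV, rfl⟩, ?_⟩
  rw [Set.disjoint_left]
  rintro _ ⟨a, ha, rfl⟩ ⟨b, hb, hab⟩
  have h1 : (a, b) ∈ U ×ˢ V := ⟨ha, hb⟩
  have h2 := hUV h1
  apply h2
  exact QuotientGroup.eq.mp hab.symm

instance : SecondCountableTopology M := inferInstance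

instance : BorelSpace M := inferInstance

/-- the unit cube, a fundamental domain -/
def cube : Set Heis := {g | g.1 ∈ Ico (0:ℝ) 1 ∧ g.2.1 ∈ Ico (0:ℝ) 1 ∧ g.2.2 ∈ Ico (0:ℝ) 1}

lemma exists_cube (g : Heis) : ∃ γ ∈ Γ, g * γ ∈ cube := by
  refine ⟨mk' ((-⌊g.1⌋ : ℤ)) ((-⌊g.2.1⌋ : ℤ)) ((-⌊g.2.2 + g.2.1 * ((-⌊g.1⌋ : ℤ))⌋ : ℤ)), ⟨_, _, _, rfl⟩,
    ?_, ?_, ?_⟩
  · simp only [mul_1, mk'_1, Int.cast_neg]
    exact ⟨by linarith [Int.floor_le g.1], by linarith [Int.lt_floor_add_one g.1]⟩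
  · simp only [mul_21, mk'_21, Int.cast_neg]
    exact ⟨by linarith [Int.floor_le g.2.1], by linarith [Int.lt_floor_add_one g.2.1]⟩
  · simp only [mul_22, mk'_22, mk'_1]
    have h1 := Int.floor_le (g.2.2 + g.2.1 * ((-⌊g.1⌋ : ℤ)))
    have h2 := Int.lt_floor_add_one (g.2.2 + g.2.1 * ((-⌊g.1⌋ : ℤ)))
    push_cast at h1 h2 ⊢
    exact ⟨by linarith, by linarith⟩

lemma cube_unique {g : Heis} {γ : Heis} (hγ : γ ∈ Γ) (hg : g ∈ cube) (hgγ : g * γ ∈ cube) :
    γ = 1 := by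
  obtain ⟨a, b, c, rfl⟩ := hγ
  obtain ⟨⟨h1, h2⟩, ⟨h3, h4⟩, ⟨h5, h6⟩⟩ := hg
  obtain ⟨⟨k1, k2⟩, ⟨k3, k4⟩, ⟨k5, k6⟩⟩ := hgγ
  simp only [mul_1, mk'_1, mul_21, mk'_21, mul_22, mk'_22] at k1 k2 k3 k4 k5 k6
  have ha : a = 0 := by
    have e1 : (-1 : ℝ) < a := by linarith
    have e2 : (a : ℝ) < 1 := by linarith
    have e1' : (-1 : ℤ) < a := by exact_mod_cast e1
    have e2' : a < 1 := by exact_mod_cast e2
    omega
  subst ha
  have hb : b = 0 := by
    have e1 : (-1 : ℝ) < b := by linarith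
    have e2 : (b : ℝ) < 1 := by linarith
    have e1' : (-1 : ℤ) < b := by exact_mod_cast e1
    have e2' : b < 1 := by exact_mod_cast e2
    omega
  subst hb
  have hc : c = 0 := by
    simp only [Int.cast_zero, mul_zero, add_zero] at k5 k6
    have e1 : (-1 : ℝ) < c := by linarith
    have e2 : (c : ℝ) < 1 := by linarith
    have e1' : (-1 : ℤ) < c := by exact_mod_cast e1
    have e2' : c < 1 := by exact_mod_cast e2
    omega
  subst hc
  apply Heis.ext' <;> simp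

noncomputable instance : MeasureSpace Heis := inferInstanceAs (MeasureSpace (ℝ × ℝ × ℝ))

lemma measurableSet_cube : MeasurableSet cube :=
  (Heis.cont_1.measurable measurableSet_Ico).inter
    ((Heis.cont_21.measurable measurableSet_Ico).inter (Heis.cont_22.measurable measurableSet_Ico))

lemma volume_cube : (volume : Measure Heis) cube = 1 := by
  have h : (volume : Measure (ℝ × ℝ × ℝ)) (Ico (0:ℝ) 1 ×ˢ (Ico (0:ℝ) 1 ×ˢ Ico (0:ℝ) 1)) = 1 := by
    rw [Measure.volume_eq_prod, Measure.volume_eq_prod, Measure.prod_prod, Measure.prod_prod]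
    simp
  exact h

instance : (volume : Measure Heis).IsMulLeftInvariant := by
  constructor
  intro g
  have h : MeasurePreserving (fun h : ℝ × ℝ × ℝ => ((g.1 + h.1, g.2.1 + h.2.1, g.2.2 + h.2.2 + g.2.1 * h.1) : ℝ × ℝ × ℝ))
      (volume : Measure (ℝ × ℝ × ℝ)) (volume : Measure (ℝ × ℝ × ℝ)) := by
    refine MeasurePreserving.skew_product (f := fun x : ℝ => g.1 + x)
      (g := fun x (v : ℝ × ℝ) => (g.2.1 + v.1, g.2.2 + v.2 + g.2.1 * x))
      (measurePreserving_add_left _ _) (by fun_prop) ?_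
    refine Filter.Eventually.of_forall fun x => ?_
    refine (MeasurePreserving.prod (measurePreserving_add_left (volume : Measure ℝ) g.2.1)
      (?_ : MeasurePreserving (fun z : ℝ => g.2.2 + z + g.2.1 * x) volume volume)).map_eq
    have := (measurePreserving_add_right (volume : Measure ℝ) (g.2.2 + g.2.1 * x))
    convert! this using 2
    ring
  exact h.map_eq

instance : (volume : Measure Heis).IsMulRightInvariant := by
  constructor
  intro g
  have h : MeasurePreserving (fun h : ℝ × ℝ × ℝ => ((h.1 + g.1, h.2.1 + g.2.1, h.2.2 + g.2.2 + h.2.1 * g.1) : ℝ × ℝ × ℝ))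
      (volume : Measure (ℝ × ℝ × ℝ)) (volume : Measure (ℝ × ℝ × ℝ)) := by
    refine MeasurePreserving.prod (measurePreserving_add_right (volume : Measure ℝ) g.1)
      (?_ : MeasurePreserving (fun v : ℝ × ℝ => (v.1 + g.2.1, v.2 + g.2.2 + v.1 * g.1)) volume volume)
    refine MeasurePreserving.skew_product (f := fun y : ℝ => y + g.2.1)
      (g := fun y (z : ℝ) => z + g.2.2 + y * g.1)
      (measurePreserving_add_right _ _) (by fun_prop) ?_
    refine Filter.Eventually.of_forall fun y => ?_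
    have := (measurePreserving_add_right (volume : Measure ℝ) (g.2.2 + y * g.1)).map_eq
    convert! this using 2
    ext z
    ring
  exact h.map_eq

lemma isFundamentalDomain_cube : IsFundamentalDomain Γ.op cube (volume : Measure Heis) := by
  apply IsFundamentalDomain.mk' measurableSet_cube.nullMeasurableSet
  intro g
  obtain ⟨γ, hγ, hg⟩ := exists_cube g
  refine ⟨⟨MulOpposite.op γ, hγ⟩, hg, ?_⟩
  rintro ⟨γ', hγ'⟩ hg'
  have h1 : g * MulOpposite.unop γ' ∈ cube := hg'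
  have h2 : γ⁻¹ * MulOpposite.unop γ' ∈ Γ := Γ.mul_mem (Γ.inv_mem hγ) hγ'
  have h3 := cube_unique h2 hg (by
    have : g * γ * (γ⁻¹ * MulOpposite.unop γ') = g * MulOpposite.unop γ' := by group
    rw [this]; exact h1)
  have h4 : MulOpposite.unop γ' = γ := by
    have := congrArg (fun x => γ * x) h3
    simpa using this
  apply Subtype.ext
  exact MulOpposite.unop_injective h4

/-- The Haar probability measure of the nilmanifold. -/
noncomputable def μH : Measure M := Measure.map pr ((volume : Measure Heis).restrict cube)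

instance : IsProbabilityMeasure μH := by
  constructor
  unfold μH
  rw [Measure.map_apply cont_pr.measurable MeasurableSet.univ]
  simp [volume_cube]

instance : SMulInvariantMeasure Heis M μH := by
  have : QuotientMeasureEqMeasurePreimage (volume : Measure Heis) μH :=
    isFundamentalDomain_cube.quotientMeasureEqMeasurePreimage rfl
  have : HasFundamentalDomain Γ.op Heis (volume : Measure Heis) := ⟨_, isFundamentalDomain_cube⟩
  exact MeasureTheory.QuotientMeasureEqMeasurePreimage.smulInvariantMeasure_quotient (volume : Measure Heis)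

instance : CompactSpace M := by
  constructor
  have h : (Set.univ : Set M) = pr '' ({g : Heis | g.1 ∈ Icc (0:ℝ) 1 ∧ g.2.1 ∈ Icc (0:ℝ) 1 ∧ g.2.2 ∈ Icc (0:ℝ) 1}) := by
    symm
    rw [Set.eq_univ_iff_forall]
    intro p
    obtain ⟨g, rfl⟩ := pr_surj p
    obtain ⟨γ, hγ, hg⟩ := exists_cube g
    refine ⟨g * γ, ⟨Ico_subset_Icc_self hg.1, Ico_subset_Icc_self hg.2.1, Ico_subset_Icc_self hg.2.2⟩, ?_⟩
    exact (pr_eq_iff.mpr ⟨γ, hγ, rfl⟩).symm
  rw [h]
  apply IsCompact.image _ cont_pr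
  have : {g : Heis | g.1 ∈ Icc (0:ℝ) 1 ∧ g.2.1 ∈ Icc (0:ℝ) 1 ∧ g.2.2 ∈ Icc (0:ℝ) 1}
    = (Icc (0:ℝ) 1 ×ˢ (Icc (0:ℝ) 1 ×ˢ Icc (0:ℝ) 1) : Set (ℝ × ℝ × ℝ)) := by
    ext g; rfl
  rw [this]
  exact isCompact_Icc.prod (isCompact_Icc.prod isCompact_Icc)

end Pool.Agent.R515.NF
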