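import Pool.Agent.R515.NF.Eigen

/-!
The time change is measurably non-trivial (MP_442888_an).
-/

open MeasureTheory Topology Filter Set
open scoped ENNReal

namespace Pool.Agent.R515.NF

open Heis

/-! ### the sets where `u_n` jumps -/

lemma sn_shift (n : ℕ) (p : M) : sn n (sx (1/2 / 2 ^ (a n)) • p) = - sn n p := by
  obtain ⟨g, rfl⟩ := pr_surj p
  rw [smul_pr, sn_pr, sn_pr, W_mul, W_sx]
  have e : (2:ℝ) ^ (a n) * (1/2 / 2 ^ (a n)) = 1/2 := by field_simp
  rw [e, add_comm, sin_half]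

/-- where `sin(2π W_n) ≥ 2^{-n}` -/
def Sp (n : ℕ) : Set M := {p | (1/2) ^ n ≤ sn n p}
/-- where `sin(2π W_n) ≤ -2^{-n}` -/
def Sm (n : ℕ) : Set M := {p | sn n p ≤ -(1/2) ^ n}

lemma measurableSet_Sp (n : ℕ) : MeasurableSet (Sp n) :=
  measurableSet_le measurable_const (cont_sn n).measurable
lemma measurableSet_Sm (n : ℕ) : MeasurableSet (Sm n) :=
  measurableSet_le (cont_sn n).measurable measurable_const

lemma Sp_eq_Sm (n : ℕ) : μH.real (Sm n) = μH.real (Sp n) := by
  have h : (fun p : M => sx (1/2 / 2 ^ (a n)) • p) ⁻¹' (Sp n) = Sm n := by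
    ext p
    rw [Set.mem_preimage]
    unfold Sp Sm
    rw [Set.mem_ofPred_eq, Set.mem_ofPred_eq, sn_shift]
    constructor <;> intro h <;> linarith
  rw [Measure.real, Measure.real, ← h,
    (measurePreserving_smul _ μH).measure_preimage (measurableSet_Sp n).nullMeasurableSet]

lemma Sp_measure (n : ℕ) (hn : 3 ≤ n) : 0.43 ≤ μH.real (Sp n) := by
  have hcov : (Set.univ : Set M) ⊆ (Sp n ∪ Sm n) ∪ {p | |sn n p| < (1/2) ^ n} := by
    intro p _
    by_cases h : |sn n p| < (1/2) ^ n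
    · exact Or.inr h
    · left
      push Not at h
      rcases le_abs.mp h with h1 | h1
      · exact Or.inl h1
      · right; show sn n p ≤ _; linarith
  have h1 : (1:ℝ) ≤ μH.real ((Sp n ∪ Sm n) ∪ {p | |sn n p| < (1/2) ^ n}) := by
    calc (1:ℝ) = μH.real univ := probReal_univ.symm
      _ ≤ _ := measureReal_mono hcov
  have h2 := measureReal_union_le (μ := μH) (Sp n ∪ Sm n) {p | |sn n p| < (1/2) ^ n}
  have h3 := measureReal_union_le (μ := μH) (Sp n) (Sm n)
  have h4 : μH.real {p | |sn n p| < (1/2) ^ n} ≤ (1/2) ^ n := by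
    rw [Measure.real]
    exact ENNReal.toReal_le_of_le_ofReal (by positivity) (sn_small_measure n)
  have h5 : ((1:ℝ)/2) ^ n ≤ (1/2) ^ 3 := pow_le_pow_of_le_one (by norm_num) (by norm_num) hn
  rw [Sp_eq_Sm] at h3
  norm_num at h5 ⊢
  linarith

lemma UU_on_Sp {n : ℕ} {p : M} (h : p ∈ Sp n) : |UU (NN n) p + 1| ≤ 2 * (1/2) ^ n := by
  obtain ⟨g, rfl⟩ := pr_surj p
  have h0 : (1/2) ^ n ≤ Real.sin (2 * Real.pi * W n g) := h
  have h1 := claim1 n (fun m => W m g)
  have h2 : Psi n (W n g) = 1 := Psi_one h0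
  have h3 : Psi n (W n g + 1/2) = 0 := by
    apply Psi_zero
    rw [sin_half]
    have : (0:ℝ) < (1/2) ^ n := by positivity
    linarith
  rw [h2, h3] at h1
  rw [UU_pr]
  convert h1 using 2
  ring

lemma UU_on_Sm {n : ℕ} {p : M} (h : p ∈ Sm n) : |UU (NN n) p - 1| ≤ 2 * (1/2) ^ n := by
  obtain ⟨g, rfl⟩ := pr_surj p
  have h0 : Real.sin (2 * Real.pi * W n g) ≤ -(1/2) ^ n := h
  have h1 := claim1 n (fun m => W m g)
  have hpos : (0:ℝ) < (1/2) ^ n := by positivity
  have h2 : Psi n (W n g) = 0 := Psi_zero (by linarith)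
  have h3 : Psi n (W n g + 1/2) = 1 := by
    apply Psi_one
    rw [sin_half]; linarith
  rw [h2, h3] at h1
  rw [UU_pr]
  convert h1 using 2
  ring

/-! ### centre-averaged functions -/

section
variable (u : M → ℝ) (ζ : ℝ)

/-- `exp(i ζ u)` -/
noncomputable def vv (p : M) : ℂ := Complex.exp ((ζ * u p : ℝ) * Complex.I)

/-- its average over the centre -/
noncomputable def V0 (p : M) : ℂ := ∫ s in (0:ℝ)..1, vv u ζ (zc s • p)

lemma norm_vv (p : M) : ‖vv u ζ p‖ = 1 := Complex.norm_exp_ofReal_mul_I _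

lemma V0_center (c : ℝ) (p : M) : V0 u ζ (zc c • p) = V0 u ζ p := by
  have hper : Function.Periodic (fun x : ℝ => vv u ζ (zc x • p)) 1 := by
    intro x
    show vv u ζ (zc (x + 1) • p) = vv u ζ (zc x • p)
    rw [zc_periodic]
  have h1 : V0 u ζ (zc c • p) = ∫ x in (0:ℝ)..1, vv u ζ (zc (x + c) • p) := by
    unfold V0
    refine intervalIntegral.integral_congr fun x _ => ?_
    rw [smul_smul, ← zc_add]
  rw [h1]
  have h2 := intervalIntegral.integral_comp_add_right
    (f := fun x : ℝ => vv u ζ (zc x • p)) (a := 0) (b := 1) c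
  rw [h2, zero_add, add_comm (1:ℝ) c, hper.intervalIntegral_add_eq c 0, zero_add]
  rfl

lemma V0_tor {p q : M} (h : tor p = tor q) : V0 u ζ p = V0 u ζ q := by
  obtain ⟨c, rfl⟩ := tor_eq h
  exact V0_center u ζ c q

lemma norm_V0_le (p : M) : ‖V0 u ζ p‖ ≤ 1 := by
  unfold V0
  refine (intervalIntegral.norm_integral_le_of_norm_le_const (C := 1) fun x _ => ?_).trans (by simp)
  rw [norm_vv]

variable {u} (hu : Measurable u)
include hu

lemma measurable_vv : Measurable (vv u ζ) := by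
  unfold vv
  have : Measurable (fun p => ((ζ * u p : ℝ) : ℂ)) := Complex.measurable_ofReal.comp (hu.const_mul ζ)
  exact Complex.measurable_exp.comp (this.mul_const _)

lemma measurable_zcs : Measurable (fun x : M × ℝ => zc x.2 • x.1) := by
  have h1 := cont_zc
  exact (by fun_prop : Continuous (fun x : M × ℝ => zc x.2 • x.1)).measurable

lemma measurable_V0 : Measurable (V0 u ζ) := by
  unfold V0
  simp only [intervalIntegral.integral_of_le (zero_le_one' ℝ)]
  have h1 : Measurable (fun x : M × ℝ => vv u ζ (zc x.2 • x.1)) :=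
    (measurable_vv ζ hu).comp (measurable_zcs hu)
  exact (h1.stronglyMeasurable.integral_prod_right' (ν := volume.restrict (Ioc (0:ℝ) 1))).measurable

/-- the average is close to one in `L¹` if `ζ` is small -/
lemma V0_close : ∫ p, ‖1 - V0 u ζ p‖ ∂μH ≤ ∫ p, ‖1 - vv u ζ p‖ ∂μH := by
  have hm := measurable_vv ζ hu
  have hmc : Measurable (fun x : M × ℝ => ‖1 - vv u ζ (zc x.2 • x.1)‖) :=
    (measurable_const.sub (hm.comp (measurable_zcs hu))).norm
  have hb : ∀ q, ‖1 - vv u ζ q‖ ≤ 2 := by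
    intro q
    refine (norm_sub_le _ _).trans ?_
    rw [norm_vv, norm_one]; norm_num
  have hint : Integrable (fun x : M × ℝ => ‖1 - vv u ζ (zc x.2 • x.1)‖)
      (μH.prod (volume.restrict (Ioc (0:ℝ) 1))) := by
    apply Integrable.of_bound hmc.aestronglyMeasurable 2
    exact Filter.Eventually.of_forall fun x => by
      rw [norm_norm]; exact hb _
  have h1 : ∀ p, ‖1 - V0 u ζ p‖ ≤ ∫ s in Ioc (0:ℝ) 1, ‖1 - vv u ζ (zc s • p)‖ := by
    intro p
    unfold V0
    rw [intervalIntegral.integral_of_le (zero_le_one' ℝ)]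
    have hmp : Measurable (fun s : ℝ => vv u ζ (zc s • p)) :=
      (hm.comp (measurable_zcs hu)).comp measurable_prodMk_left
    have hi : Integrable (fun s : ℝ => vv u ζ (zc s • p)) (volume.restrict (Ioc (0:ℝ) 1)) := by
      apply Integrable.of_bound hmp.aestronglyMeasurable 1
      exact Filter.Eventually.of_forall fun x => (norm_vv u ζ _).le
    have h2 : (1:ℂ) - ∫ s in Ioc (0:ℝ) 1, vv u ζ (zc s • p)
        = ∫ s in Ioc (0:ℝ) 1, (1 - vv u ζ (zc s • p)) := by
      rw [integral_sub (integrable_const _) hi]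
      simp
    rw [h2]
    exact norm_integral_le_integral_norm _
  have h2 : ∫ p, ‖1 - V0 u ζ p‖ ∂μH
      ≤ ∫ p, (∫ s in Ioc (0:ℝ) 1, ‖1 - vv u ζ (zc s • p)‖) ∂μH := by
    apply integral_mono _ hint.integral_prod_left h1
    apply Integrable.of_bound (measurable_const.sub (measurable_V0 ζ hu)).norm.aestronglyMeasurable 2
    refine Filter.Eventually.of_forall fun p => ?_
    rw [norm_norm]
    refine (norm_sub_le _ _).trans ?_
    have := norm_V0_le u ζ p
    rw [norm_one]; linarith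
  refine h2.trans (le_of_eq ?_)
  rw [integral_integral_swap hint]
  have h3 : ∀ s : ℝ, ∫ p, ‖1 - vv u ζ (zc s • p)‖ ∂μH = ∫ p, ‖1 - vv u ζ p‖ ∂μH := by
    intro s
    exact (measurePreserving_smul (zc s) μH).integral_comp (MeasurableEquiv.smul (zc s)).measurableEmbedding
      (fun p => ‖1 - vv u ζ p‖)
  simp only [h3]
  simp

end

end Pool.Agent.R515.NF
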