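import Pool.Agent.R515.NF.NonTriv

/-!
The time change is measurably non-trivial, conclusion (MP_442888_an).
-/

open MeasureTheory Topology Filter Set
open scoped ENNReal BoundedContinuousFunction

namespace Pool.Agent.R515.NF

open Heis

lemma uu_center (n : ℕ) (s : ℝ) (p : M) : uu n (zc s • p) = uu n p := by
  obtain ⟨g, rfl⟩ := pr_surj p
  rw [smul_pr, uu_pr, uu_pr, W_mul, W_zc, zero_add]

lemma nilflow_center (t s : ℝ) (p : M) : nilflow th t (zc s • p) = zc s • nilflow th t p := by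
  unfold nilflow
  rw [smul_smul, smul_smul, zc_comm]

lemma UU_center (t s : ℝ) (p : M) : UU t (zc s • p) = UU t p := by
  unfold UU
  refine tsum_congr fun n => ?_
  rw [nilflow_center, uu_center, uu_center]

/-- `∫_0^t (α - c)` -/
noncomputable def AA (c t : ℝ) (p : M) : ℝ := t + UU t p - c * t

lemma AA_eq (c t : ℝ) (p : M) :
    ∫ r in (0:ℝ)..t, (al (nilflow th r p) - c) = AA c t p := by
  have hc : Continuous (fun r : ℝ => al (nilflow th r p)) := by
    have h1 := cont_al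
    have h2 := cont_gt th
    unfold nilflow
    fun_prop
  rw [intervalIntegral.integral_sub (hc.intervalIntegrable _ _) (by simp), integral_al]
  unfold AA
  simp; ring

lemma cont_nilflow (t : ℝ) : Continuous (nilflow th t) := by unfold nilflow; fun_prop

lemma measurable_UU (t : ℝ) : Measurable (UU t) := by
  have h : ∀ p, UU t p = (∫ r in (0:ℝ)..t, (al (nilflow th r p) - 0)) - t := by
    intro p
    rw [AA_eq]; unfold AA; ring
  have h2 : Continuous (fun p => ∫ r in (0:ℝ)..t, (al (nilflow th r p) - 0)) := by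
    apply intervalIntegral.continuous_parametric_intervalIntegral_of_continuous'
    have h1 := cont_al
    have h2 := cont_gt th
    unfold nilflow
    show Continuous (fun x : M × ℝ => al (gt th x.2 • x.1) - 0)
    fun_prop
  have h3 : UU t = fun p => (∫ r in (0:ℝ)..t, (al (nilflow th r p) - 0)) - t := funext h
  rw [h3]
  exact (h2.sub continuous_const).measurable

lemma AA_center (c t s : ℝ) (p : M) : AA c t (zc s • p) = AA c t p := by
  unfold AA; rw [UU_center]

section
variable {u : M → ℝ} (hu : Measurable u) {c : ℝ}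
  (h : ∀ t : ℝ, ∀ᵐ p ∂μH, u (nilflow th t p) - u p = ∫ r in (0:ℝ)..t, (al (nilflow th r p) - c))
include hu h

lemma V0_flow (ζ t : ℝ) : ∀ᵐ p ∂μH, V0 u ζ (nilflow th t p)
    = Complex.exp ((ζ * AA c t p : ℝ) * Complex.I) * V0 u ζ p := by
  have hmE : MeasurableSet {p : M | u (nilflow th t p) - u p = AA c t p} := by
    apply measurableSet_eq_fun
    · exact (hu.comp (cont_nilflow t).measurable).sub hu
    · exact ((measurable_const.add (measurable_UU t)).sub measurable_const)
  have h1 : ∀ᵐ p ∂μH, u (nilflow th t p) - u p = AA c t p := by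
    filter_upwards [h t] with p hp
    rw [hp, AA_eq]
  have h2 : ∀ s : ℝ, ∀ᵐ p ∂μH, u (nilflow th t (zc s • p)) - u (zc s • p) = AA c t (zc s • p) := by
    intro s
    exact (measurePreserving_smul (zc s) μH).quasiMeasurePreserving.ae h1
  have h3 : ∀ᵐ p ∂μH, ∀ᵐ s ∂(volume.restrict (Ioc (0:ℝ) 1)),
      u (nilflow th t (zc s • p)) - u (zc s • p) = AA c t (zc s • p) := by
    rw [← Measure.ae_ae_comm]
    · exact Filter.Eventually.of_forall h2
    · have hz : Measurable (fun x : ℝ × M => zc x.1 • x.2) := by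
        have h1 := cont_zc
        exact (by fun_prop : Continuous (fun x : ℝ × M => zc x.1 • x.2)).measurable
      exact hz hmE
  filter_upwards [h3] with p hp
  unfold V0
  rw [intervalIntegral.integral_of_le (zero_le_one' ℝ), intervalIntegral.integral_of_le (zero_le_one' ℝ),
    ← integral_const_mul]
  refine integral_congr_ae ?_
  filter_upwards [hp] with s hs
  rw [← nilflow_center]
  unfold vv
  rw [← Complex.exp_add]
  congr 1
  have : u (nilflow th t (zc s • p)) = AA c t p + u (zc s • p) := by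
    rw [← AA_center c t s p]; linarith
  rw [this]; push_cast; ring

omit h in
/-- continuity of translations in `L¹` -/
lemma V0_trans (ζ : ℝ) {ε : ℝ} (hε : 0 < ε) :
    ∀ᶠ g in 𝓝 (1 : Heis), ∫ p, ‖V0 u ζ (g • p) - V0 u ζ p‖ ∂μH ≤ ε := by
  let _ : MetricSpace M := TopologicalSpace.metrizableSpaceMetric M
  have hVm := measurable_V0 ζ hu
  have hVi : Integrable (V0 u ζ) μH :=
    Integrable.of_bound hVm.aestronglyMeasurable 1 (Filter.Eventually.of_forall (norm_V0_le u ζ))
  obtain ⟨g0, hg0, hg0i⟩ := hVi.exists_boundedContinuous_integral_sub_le (ε := ε / 3) (by positivity)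
  let F : C(M, ℂ) := g0.toContinuousMap
  have hF : ∀ p, F p = g0 p := fun p => rfl
  filter_upwards [unif_small F (δ := ε / 3) (by positivity)] with g hg
  have hmp := measurePreserving_smul g μH
  have i1 : Integrable (fun p => ‖V0 u ζ p - F p‖) μH := (hVi.sub hg0i).norm
  have i2 : Integrable (fun p => ‖V0 u ζ (g • p) - F (g • p)‖) μH := hmp.integrable_comp_of_integrable i1
  have i3 : Integrable (fun p => ‖F (g • p) - F p‖) μH := by
    refine Integrable.of_bound (C := ε / 3) ?_ ?_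
    · exact (by fun_prop : Continuous (fun p : M => ‖F (g • p) - F p‖)).aestronglyMeasurable
    · exact Filter.Eventually.of_forall fun p => by rw [norm_norm]; exact (hg p).le
  have e2 : ∫ p, ‖V0 u ζ (g • p) - F (g • p)‖ ∂μH = ∫ p, ‖V0 u ζ p - F p‖ ∂μH :=
    hmp.integral_comp (MeasurableEquiv.smul g).measurableEmbedding (fun p => ‖V0 u ζ p - F p‖)
  have hle : ∀ p, ‖V0 u ζ (g • p) - V0 u ζ p‖
      ≤ (‖V0 u ζ (g • p) - F (g • p)‖ + ‖F (g • p) - F p‖) + ‖V0 u ζ p - F p‖ := by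
    intro p
    have : V0 u ζ (g • p) - V0 u ζ p = ((V0 u ζ (g • p) - F (g • p)) + (F (g • p) - F p))
      + (F p - V0 u ζ p) := by ring
    rw [this]
    refine (norm_add_le _ _).trans ?_
    rw [norm_sub_rev (F p)]
    gcongr
    exact norm_add_le _ _
  have i4 : Integrable (fun p => ‖V0 u ζ (g • p) - V0 u ζ p‖) μH :=
    ((hmp.integrable_comp_of_integrable hVi).sub hVi).norm
  calc ∫ p, ‖V0 u ζ (g • p) - V0 u ζ p‖ ∂μH
      ≤ ∫ p, ((‖V0 u ζ (g • p) - F (g • p)‖ + ‖F (g • p) - F p‖) + ‖V0 u ζ p - F p‖) ∂μH :=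
        integral_mono i4 ((i2.add i3).add i1) hle
    _ = (∫ p, ‖V0 u ζ (g • p) - F (g • p)‖ ∂μH + ∫ p, ‖F (g • p) - F p‖ ∂μH)
        + ∫ p, ‖V0 u ζ p - F p‖ ∂μH := by
        have i5 : Integrable (fun p => ‖V0 u ζ (g • p) - F (g • p)‖ + ‖F (g • p) - F p‖) μH := i2.add i3
        rw [integral_add i5 i1, integral_add i2 i3]
    _ ≤ (ε / 3 + ε / 3) + ε / 3 := by
        rw [e2]
        have e3 : ∫ p, ‖F (g • p) - F p‖ ∂μH ≤ ε / 3 := by
          have := integral_mono i3 (integrable_const (ε / 3)) (fun p => (hg p).le)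
          simpa using this
        have e4 : ∫ p, ‖V0 u ζ p - F p‖ ∂μH ≤ ε / 3 := hg0
        linarith
    _ = ε := by ring

omit h in
/-- small `ζ` -/
lemma exists_zeta : ∃ ζ : ℝ, 0 < ζ ∧ ζ < 1 ∧ ∫ p, ‖1 - vv u ζ p‖ ∂μH ≤ 1/20 := by
  have ht : Tendsto (fun k : ℕ => ∫ p, ‖1 - vv u (1 / ((k:ℝ) + 1)) p‖ ∂μH) atTop (𝓝 0) := by
    have h0 : (0:ℝ) = ∫ p : M, (0:ℝ) ∂μH := by simp
    rw [h0]
    refine tendsto_integral_of_dominated_convergence (fun _ => 2) ?_ (integrable_const _) ?_ ?_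
    · intro k
      exact (measurable_const.sub (measurable_vv _ hu)).norm.aestronglyMeasurable
    · intro k
      refine Filter.Eventually.of_forall fun p => ?_
      rw [norm_norm]
      refine (norm_sub_le _ _).trans ?_
      rw [norm_vv, norm_one]; norm_num
    · refine Filter.Eventually.of_forall fun p => ?_
      have h1 : Tendsto (fun k : ℕ => 1 / ((k:ℝ) + 1)) atTop (𝓝 0) := tendsto_one_div_add_atTop_nhds_zero_nat
      have h2 : Continuous (fun ζ : ℝ => ‖1 - Complex.exp ((ζ * u p : ℝ) * Complex.I)‖) := by fun_prop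
      have h3 := (h2.tendsto 0).comp h1
      simp only [zero_mul, Complex.ofReal_zero, Complex.exp_zero, sub_self, norm_zero] at h3
      exact h3
  have h1 := ht.eventually_lt_const (show (0:ℝ) < 1/20 by norm_num)
  obtain ⟨k, hk, hk1⟩ := (h1.and (eventually_ge_atTop 1)).exists
  refine ⟨1 / ((k:ℝ) + 1), by positivity, ?_, hk.le⟩
  rw [div_lt_one (by positivity)]
  have : (1:ℝ) ≤ k := by exact_mod_cast hk1
  linarith

/-- at the rigidity times `V0` is nearly invariant -/
lemma V0_NN (ζ : ℝ) {ε : ℝ} (hε : 0 < ε) :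
    ∀ᶠ n in atTop, ∫ p, ‖V0 u ζ (nilflow th (NN n) p) - V0 u ζ p‖ ∂μH ≤ ε := by
  choose k τ hk hτ0 hτ1 using NN_th
  have hτ : Tendsto τ atTop (𝓝 0) := by
    refine squeeze_zero hτ0 (g := fun n => (1/2:ℝ) ^ n) ?_
      (tendsto_pow_atTop_nhds_zero_of_lt_one (by norm_num) (by norm_num))
    intro n
    exact (hτ1 n).trans (pow_le_pow_of_le_one (by norm_num) (by norm_num) (by have := a_ge' n; omega))
  have hs : Tendsto (fun n => sx (τ n)) atTop (𝓝 1) := by
    have h5 := (cont_sx.tendsto 0).comp hτ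
    have h6 : sx 0 = 1 := by apply Heis.ext' <;> simp [sx]
    rw [h6] at h5
    exact h5
  filter_upwards [hs.eventually (V0_trans hu ζ hε)] with n hn
  have heq : ∀ p, V0 u ζ (nilflow th (NN n) p) = V0 u ζ (sx (τ n) • p) := by
    intro p
    apply V0_tor
    obtain ⟨g, rfl⟩ := pr_surj p
    rw [nilflow_pr, smul_pr, tor_pr, tor_pr]
    have e : ∀ (x : ℝ) (j : ℤ), ((x + j : ℝ) : UnitAddCircle) = (x : UnitAddCircle) := by
      intro x j
      rw [AddCircle.coe_add]
      have h4 : ((j : ℝ) : UnitAddCircle) = 0 := by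
        rw [AddCircle.coe_eq_zero_iff]; exact ⟨j, by simp⟩
      rw [h4, add_zero]
    have e1 : (((gt th (NN n) * g).1 : ℝ) : UnitAddCircle) = (((sx (τ n) * g).1 : ℝ) : UnitAddCircle) := by
      have : (gt th (NN n) * g).1 = (sx (τ n) * g).1 + (k n : ℤ) := by
        simp only [mul_1, gt, sx, mk'_1]
        rw [hk n]; ring
      rw [this, e]
    have e2 : (((gt th (NN n) * g).2.1 : ℝ) : UnitAddCircle) = (((sx (τ n) * g).2.1 : ℝ) : UnitAddCircle) := by
      have : (gt th (NN n) * g).2.1 = (sx (τ n) * g).2.1 + ((NN n : ℤ) : ℝ) := by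
        simp only [mul_21, gt, sx, mk'_21]
        push_cast; ring
      rw [this, e]
    rw [e1, e2]
  simp only [heq]
  exact hn

lemma exists_point {S : Set M} (hS : 0.43 ≤ μH.real S) {ζ : ℝ}
    (hζ : ∫ p, ‖1 - vv u ζ p‖ ∂μH ≤ 1/20) {η : ℝ} (hη : 0 < η) {t : ℝ}
    (ht : ∫ p, ‖V0 u ζ (nilflow th t p) - V0 u ζ p‖ ∂μH ≤ η / 40) :
    ∃ p ∈ S, ‖Complex.exp ((ζ * AA c t p : ℝ) * Complex.I) - 1‖ < η := by
  have hVm := measurable_V0 ζ hu
  have hVi : Integrable (V0 u ζ) μH :=
    Integrable.of_bound hVm.aestronglyMeasurable 1 (Filter.Eventually.of_forall (norm_V0_le u ζ))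
  have hVti : Integrable (fun p => V0 u ζ (nilflow th t p)) μH :=
    (measurePreserving_smul (gt th t) μH).integrable_comp_of_integrable hVi
  set B := {p | η / 2 ≤ ‖V0 u ζ (nilflow th t p) - V0 u ζ p‖} with hB
  set C := {p | 1/2 ≤ ‖1 - V0 u ζ p‖} with hC
  set D := {p | ¬ (V0 u ζ (nilflow th t p)
    = Complex.exp ((ζ * AA c t p : ℝ) * Complex.I) * V0 u ζ p)} with hD
  have hBm : μH.real B ≤ 1/20 := by
    have := mul_meas_ge_le_integral_of_nonneg (μ := μH)
      (Filter.Eventually.of_forall fun p => norm_nonneg (V0 u ζ (nilflow th t p) - V0 u ζ p))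
      (hVti.sub hVi).norm (η / 2)
    have h1 : η / 2 * μH.real B ≤ η / 40 := this.trans ht
    have h2 : η / 2 * μH.real B ≤ η / 2 * (1/20) := by linarith
    exact le_of_mul_le_mul_left h2 (by positivity)
  have hCm : μH.real C ≤ 1/10 := by
    have := mul_meas_ge_le_integral_of_nonneg (μ := μH)
      (Filter.Eventually.of_forall fun p => norm_nonneg (1 - V0 u ζ p))
      ((integrable_const (1:ℂ)).sub hVi).norm (1/2)
    have h1 : 1/2 * μH.real C ≤ 1/20 := this.trans ((V0_close ζ hu).trans hζ)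
    linarith
  have hDm : μH.real D = 0 := by
    have := V0_flow hu h ζ t
    rw [ae_iff] at this
    rw [Measure.real, this]; simp
  have hne : ¬ S ⊆ (B ∪ C) ∪ D := by
    intro hsub
    have h1 := measureReal_mono (μ := μH) hsub
    have h2 := measureReal_union_le (μ := μH) (B ∪ C) D
    have h3 := measureReal_union_le (μ := μH) B C
    norm_num at hS
    linarith
  obtain ⟨p, hpS, hp⟩ := Set.not_subset.mp hne
  refine ⟨p, hpS, ?_⟩
  simp only [Set.mem_union, not_or] at hp
  obtain ⟨⟨hpB, hpC⟩, hpD⟩ := hp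
  have hb : ‖V0 u ζ (nilflow th t p) - V0 u ζ p‖ < η / 2 := not_le.mp hpB
  have hc : ‖1 - V0 u ζ p‖ < 1/2 := not_le.mp hpC
  have hd : V0 u ζ (nilflow th t p)
    = Complex.exp ((ζ * AA c t p : ℝ) * Complex.I) * V0 u ζ p := not_not.mp hpD
  have hV : 1/2 < ‖V0 u ζ p‖ := by
    have := norm_sub_norm_le (1:ℂ) (V0 u ζ p)
    rw [norm_one] at this
    linarith
  have h1 : ‖Complex.exp ((ζ * AA c t p : ℝ) * Complex.I) - 1‖ * ‖V0 u ζ p‖ < η / 2 := by
    rw [← norm_mul, sub_mul, one_mul, ← hd]; exact hb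
  have h2 : 0 ≤ ‖Complex.exp ((ζ * AA c t p : ℝ) * Complex.I) - 1‖ := norm_nonneg _
  nlinarith

/-- the time change function is not measurably cohomologous to a constant -/
theorem not_trivial : False := by
  obtain ⟨ζ, hζ0, hζ1, hζ⟩ := exists_zeta hu
  have hne : Complex.exp (((2 * ζ : ℝ) : ℂ) * Complex.I) ≠ 1 := by
    intro he
    rw [Complex.exp_eq_one_iff] at he
    obtain ⟨k, hk⟩ := he
    have h1 : (((2 * ζ : ℝ) : ℂ)) = ((k * (2 * Real.pi) : ℝ) : ℂ) := by
      have hI : Complex.I ≠ 0 := Complex.I_ne_zero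
      apply mul_right_cancel₀ hI
      rw [hk]; push_cast; ring
    have h2 : 2 * ζ = k * (2 * Real.pi) := by exact_mod_cast h1
    have h3 := Real.pi_gt_three
    have h4 : (0:ℝ) < k := by
      by_contra hcon
      push Not at hcon
      nlinarith
    have h5 : (1:ℝ) ≤ k := by
      have : (0:ℤ) < k := by exact_mod_cast h4
      exact_mod_cast this
    nlinarith
  set κ := ‖Complex.exp (((2 * ζ : ℝ) : ℂ) * Complex.I) - 1‖ with hκ
  have hκ0 : 0 < κ := norm_pos_iff.mpr (sub_ne_zero.mpr hne)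
  have e1 := V0_NN hu h ζ (ε := κ / 4 / 40) (by positivity)
  have e2 : ∀ᶠ n : ℕ in atTop, ((1:ℝ)/2) ^ n < κ / 16 := by
    have := tendsto_pow_atTop_nhds_zero_of_lt_one (r := (1/2:ℝ)) (by norm_num) (by norm_num)
    exact this.eventually_lt_const (by positivity)
  obtain ⟨n, ⟨hn1, hn2⟩, hn3⟩ := ((e1.and e2).and (eventually_ge_atTop 3)).exists
  have hSp := Sp_measure n hn3
  have hSm : 0.43 ≤ μH.real (Sm n) := by rw [Sp_eq_Sm]; exact hSp
  obtain ⟨p, hpS, hp⟩ := exists_point hu h hSp hζ (η := κ / 4) (by positivity) hn1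
  obtain ⟨q, hqS, hq⟩ := exists_point hu h hSm hζ (η := κ / 4) (by positivity) hn1
  have hU1 := UU_on_Sp hpS
  have hU2 := UU_on_Sm hqS
  set δ := AA c (NN n) q - AA c (NN n) p with hδ
  have hδ2 : |δ - 2| ≤ 4 * (1/2) ^ n := by
    have : δ - 2 = (UU (NN n) q - 1) - (UU (NN n) p + 1) := by
      rw [hδ]; unfold AA; ring
    rw [this]
    refine (abs_sub _ _).trans ?_
    linarith
  have h1 : ‖Complex.exp ((ζ * δ : ℝ) * Complex.I) - 1‖ < κ / 2 := by
    have e3 : Complex.exp ((ζ * AA c (NN n) q : ℝ) * Complex.I) - Complex.exp ((ζ * AA c (NN n) p : ℝ) * Complex.I)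
        = Complex.exp ((ζ * AA c (NN n) p : ℝ) * Complex.I) * (Complex.exp ((ζ * δ : ℝ) * Complex.I) - 1) := by
      rw [mul_sub, mul_one, ← Complex.exp_add]
      congr 2
      rw [hδ]; push_cast; ring
    have e4 : ‖Complex.exp ((ζ * AA c (NN n) q : ℝ) * Complex.I) - Complex.exp ((ζ * AA c (NN n) p : ℝ) * Complex.I)‖
        = ‖Complex.exp ((ζ * δ : ℝ) * Complex.I) - 1‖ := by
      rw [e3, norm_mul, Complex.norm_exp_ofReal_mul_I, one_mul]
    rw [← e4]
    have e5 : Complex.exp ((ζ * AA c (NN n) q : ℝ) * Complex.I) - Complex.exp ((ζ * AA c (NN n) p : ℝ) * Complex.I)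
      = (Complex.exp ((ζ * AA c (NN n) q : ℝ) * Complex.I) - 1)
        - (Complex.exp ((ζ * AA c (NN n) p : ℝ) * Complex.I) - 1) := by ring
    rw [e5]
    refine (norm_sub_le _ _).trans_lt ?_
    linarith
  have h2 : ‖Complex.exp (((2 * ζ : ℝ) : ℂ) * Complex.I) - Complex.exp ((ζ * δ : ℝ) * Complex.I)‖ ≤ κ / 4 := by
    have e3 : Complex.exp (((2 * ζ : ℝ) : ℂ) * Complex.I) - Complex.exp ((ζ * δ : ℝ) * Complex.I)
      = Complex.exp (((2 * ζ : ℝ) : ℂ) * Complex.I) * (1 - Complex.exp ((ζ * (δ - 2) : ℝ) * Complex.I)) := by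
      have e6 : Complex.exp ((ζ * δ : ℝ) * Complex.I) = Complex.exp (((2 * ζ : ℝ) : ℂ) * Complex.I)
          * Complex.exp ((ζ * (δ - 2) : ℝ) * Complex.I) := by
        rw [← Complex.exp_add]
        congr 1
        push_cast; ring
      rw [e6]; ring
    rw [e3, norm_mul, Complex.norm_exp_ofReal_mul_I, one_mul, norm_sub_rev]
    have e4 := Real.norm_exp_I_mul_ofReal_sub_one_le (x := ζ * (δ - 2))
    rw [mul_comm Complex.I] at e4
    refine e4.trans ?_
    rw [Real.norm_eq_abs, abs_mul, abs_of_pos hζ0]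
    have : ζ * |δ - 2| ≤ 1 * (4 * (1/2) ^ n) := by gcongr
    linarith
  have h3 : κ ≤ ‖Complex.exp (((2 * ζ : ℝ) : ℂ) * Complex.I) - Complex.exp ((ζ * δ : ℝ) * Complex.I)‖
      + ‖Complex.exp ((ζ * δ : ℝ) * Complex.I) - 1‖ := by
    rw [hκ]
    have : Complex.exp (((2 * ζ : ℝ) : ℂ) * Complex.I) - 1
      = (Complex.exp (((2 * ζ : ℝ) : ℂ) * Complex.I) - Complex.exp ((ζ * δ : ℝ) * Complex.I))
        + (Complex.exp ((ζ * δ : ℝ) * Complex.I) - 1) := by ring
    rw [this]
    exact norm_add_le _ _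
  linarith

end

end Pool.Agent.R515.NF
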