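import Pool.Agent.R515.NF.Heis

/-!
Torus factor of the nilmanifold, integrals of centre-invariant functions (MP_442888_an).
-/

open MeasureTheory Topology Filter Set

namespace Pool.Agent.R515.NF

open Heis

/-- the one-parameter group -/
noncomputable def gt (θ t : ℝ) : Heis := mk' (t * θ) t (t ^ 2 * θ / 2)

/-- central elements -/
noncomputable def zc (c : ℝ) : Heis := mk' 0 0 c

/-- horizontal elements -/
noncomputable def sx (u : ℝ) : Heis := mk' u 0 0

/-- the nilflow `φ_t(gΓ) = exp(tX) gΓ`, `X = (θ, 1, 0)` -/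
noncomputable def nilflow (θ t : ℝ) (p : M) : M := gt θ t • p

lemma gt_add (θ s t : ℝ) : gt θ (s + t) = gt θ s * gt θ t := by
  apply Heis.ext' <;> simp [gt] <;> ring

lemma gt_zero (θ : ℝ) : gt θ 0 = 1 := by
  apply Heis.ext' <;> simp [gt]

lemma zc_comm (c : ℝ) (g : Heis) : zc c * g = g * zc c := by
  apply Heis.ext' <;> simp [zc] <;> ring

lemma zc_add (c d : ℝ) : zc (c + d) = zc c * zc d := by
  apply Heis.ext' <;> simp [zc]

lemma zc_zero : zc 0 = 1 := by
  apply Heis.ext' <;> simp [zc]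

lemma zc_one_smul (p : M) : zc 1 • p = p := by
  obtain ⟨g, rfl⟩ := pr_surj p
  rw [smul_pr, zc_comm]
  exact (pr_eq_iff.mpr ⟨zc 1, ⟨0, 0, 1, by simp [zc]⟩, rfl⟩).symm

lemma gt_sx (θ t u : ℝ) : gt θ t * sx u = zc (t * u) * (sx u * gt θ t) := by
  apply Heis.ext' <;> simp [gt, sx, zc] <;> ring

lemma cont_gt (θ : ℝ) : Continuous (gt θ) := by
  unfold gt
  exact cont_mk' (by fun_prop) (by fun_prop) (by fun_prop)

lemma cont_zc : Continuous zc := by
  unfold zc
  exact cont_mk' (by fun_prop) (by fun_prop) (by fun_prop)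

lemma cont_sx : Continuous sx := by
  unfold sx
  exact cont_mk' (by fun_prop) (by fun_prop) (by fun_prop)

/-- the projection to the torus -/
noncomputable def tor : M → UnitAddTorus (Fin 2) :=
  Quotient.lift (fun g : Heis => (![(g.1 : UnitAddCircle), (g.2.1 : UnitAddCircle)] :
    UnitAddTorus (Fin 2))) (by
    intro g h hgh
    have h1 : g⁻¹ * h ∈ Γ := QuotientGroup.leftRel_apply.mp hgh
    obtain ⟨a, b, c, h2⟩ := h1
    have h3 : h = g * mk' a b c := by rw [← h2]; group
    rw [h3]
    simp only [mul_1, mk'_1, mul_21, mk'_21]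
    have e : ∀ (x : ℝ) (k : ℤ), ((x + k : ℝ) : UnitAddCircle) = (x : UnitAddCircle) := by
      intro x k
      rw [AddCircle.coe_add]
      have h4 : ((k : ℝ) : UnitAddCircle) = 0 := by
        rw [AddCircle.coe_eq_zero_iff]; exact ⟨k, by simp⟩
      rw [h4, add_zero]
    rw [e, e])

lemma tor_pr (g : Heis) : tor (pr g) = ![(g.1 : UnitAddCircle), (g.2.1 : UnitAddCircle)] := rfl

lemma cont_tor : Continuous tor := by
  apply continuous_quot_lift
  apply continuous_pi
  intro i
  fin_cases i
  · exact (AddCircle.continuous_mk' 1).comp cont_1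
  · exact (AddCircle.continuous_mk' 1).comp cont_21

lemma tor_surj : Function.Surjective tor := by
  intro v
  obtain ⟨x, hx⟩ := QuotientAddGroup.mk_surjective (v 0)
  obtain ⟨y, hy⟩ := QuotientAddGroup.mk_surjective (v 1)
  refine ⟨pr (mk' x y 0), ?_⟩
  rw [tor_pr]
  ext i
  fin_cases i
  · exact hx
  · exact hy

lemma tor_eq {p q : M} (h : tor p = tor q) : ∃ c, p = zc c • q := by
  obtain ⟨g, rfl⟩ := pr_surj p
  obtain ⟨k, rfl⟩ := pr_surj q
  rw [tor_pr, tor_pr] at h
  have h0 := congrFun h 0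
  have h1 := congrFun h 1
  simp only [Matrix.cons_val_zero, Matrix.cons_val_one] at h0 h1
  rw [← sub_eq_zero, ← AddCircle.coe_sub, AddCircle.coe_eq_zero_iff] at h0 h1
  obtain ⟨a, ha⟩ := h0
  obtain ⟨b, hb⟩ := h1
  simp only [zsmul_eq_mul, mul_one] at ha hb
  refine ⟨g.2.2 - k.2.2 - k.2.1 * a, ?_⟩
  rw [smul_pr]
  apply Eq.symm
  rw [pr_eq_iff]
  refine ⟨mk' a b 0, ⟨a, b, 0, by simp⟩, ?_⟩
  apply Heis.ext' <;> simp [zc] <;> linarith

lemma isQuotientMap_tor : IsQuotientMap tor :=
  (cont_tor.isClosedMap).isQuotientMap cont_tor tor_surj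

/-- continuous centre-invariant functions factor through the torus -/
lemma exists_factor (E : C(M, ℂ)) (hE : ∀ c p, E (zc c • p) = E p) :
    ∃ e : C(UnitAddTorus (Fin 2), ℂ), ∀ p, E p = e (tor p) := by
  have hfac : ∀ p q, tor p = tor q → E p = E q := by
    intro p q h
    obtain ⟨c, rfl⟩ := tor_eq h
    exact hE c q
  refine ⟨⟨fun v => E (Function.surjInv tor_surj v), ?_⟩, ?_⟩
  · rw [isQuotientMap_tor.continuous_iff]
    have : (fun v => E (Function.surjInv tor_surj v)) ∘ tor = E := by
      funext p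
      exact hfac _ _ (Function.surjInv_eq tor_surj (tor p))
    rw [this]; exact E.continuous
  · intro p
    exact hfac _ _ (Function.surjInv_eq tor_surj (tor p)).symm

/-- characters of the torus along an orbit of a group element -/
lemma mFourier_tor_smul (n : Fin 2 → ℤ) (g : Heis) (p : M) :
    UnitAddTorus.mFourier n (tor (g • p))
      = Complex.exp (2 * Real.pi * Complex.I * (n 0 * g.1 + n 1 * g.2.1)) *
        UnitAddTorus.mFourier n (tor p) := by
  obtain ⟨k, rfl⟩ := pr_surj p
  rw [smul_pr, tor_pr, tor_pr]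
  simp only [UnitAddTorus.mFourier, ContinuousMap.coe_mk, Fin.prod_univ_two, Matrix.cons_val_zero,
    Matrix.cons_val_one, mul_1, mul_21]
  rw [fourier_coe_apply, fourier_coe_apply, fourier_coe_apply, fourier_coe_apply,
    ← Complex.exp_add, ← Complex.exp_add, ← Complex.exp_add]
  congr 1
  push_cast
  ring

section
variable {θ : ℝ} {m : Measure M} [IsProbabilityMeasure m]

lemma int_smul {m : Measure M} {g : Heis} (hg : m.map (fun p => g • p) = m)
    {f : M → ℂ} (hf : Continuous f) : ∫ p, f (g • p) ∂m = ∫ p, f p ∂m := by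
  conv_rhs => rw [← hg]
  rw [integral_map (by fun_prop) hf.aestronglyMeasurable]

lemma integrable_of_cont {f : M → ℂ} (hf : Continuous f) : Integrable f m := by
  obtain ⟨C, hC⟩ := isCompact_univ.exists_bound_of_continuousOn hf.continuousOn
  exact Integrable.of_bound hf.aestronglyMeasurable C (Filter.Eventually.of_forall fun p => hC p trivial)

lemma int_char_zero (n : Fin 2 → ℤ) (g : Heis) (hg : m.map (fun p => g • p) = m)
    (hne : Complex.exp (2 * Real.pi * Complex.I * (n 0 * g.1 + n 1 * g.2.1)) ≠ 1) :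
    ∫ p, UnitAddTorus.mFourier n (tor p) ∂m = 0 := by
  have hc : Continuous (fun p => UnitAddTorus.mFourier n (tor p)) :=
    (UnitAddTorus.mFourier n).continuous.comp cont_tor
  have h1 := int_smul hg hc
  simp only [mFourier_tor_smul] at h1
  rw [integral_const_mul] at h1
  have h2 : (Complex.exp (2 * Real.pi * Complex.I * (n 0 * g.1 + n 1 * g.2.1)) - 1) *
    ∫ p, UnitAddTorus.mFourier n (tor p) ∂m = 0 := by
    rw [sub_mul, h1]; ring
  rcases mul_eq_zero.mp h2 with h | h
  · exact absurd (sub_eq_zero.mp h) hne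
  · exact h

lemma exp_half_ne (a : ℝ) (ha : a ≠ 0) :
    Complex.exp (2 * Real.pi * Complex.I * ((1 / (2 * a) : ℝ) * a)) ≠ 1 := by
  have : (2 * Real.pi * Complex.I * (((1 / (2 * a) : ℝ) : ℂ) * (a : ℂ))) = Real.pi * Complex.I := by
    have ha' : (a : ℂ) ≠ 0 := by exact_mod_cast ha
    push_cast
    field_simp
  rw [this, Complex.exp_pi_mul_I]
  norm_num

lemma int_char_flow (hθ : Irrational θ) (hm : ∀ t, m.map (nilflow θ t) = m)
    (n : Fin 2 → ℤ) (hn : n ≠ 0) : ∫ p, UnitAddTorus.mFourier n (tor p) ∂m = 0 := by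
  have hne : (n 0 : ℝ) * θ + n 1 ≠ 0 := by
    intro h
    by_cases h0 : n 0 = 0
    · rw [h0] at h
      simp only [Int.cast_zero, zero_mul, zero_add, Int.cast_eq_zero] at h
      apply hn
      ext i
      fin_cases i
      · exact h0
      · exact h
    · have h0' : (n 0 : ℝ) ≠ 0 := by exact_mod_cast h0
      have : θ = ((-(n 1) / n 0 : ℚ) : ℝ) := by
        push_cast
        field_simp
        linarith
      exact hθ ⟨_, this.symm⟩
  apply int_char_zero n (gt θ (1 / (2 * ((n 0 : ℝ) * θ + n 1)))) (hm _)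
  have h1 := exp_half_ne _ hne
  have h2 : (2 * Real.pi * Complex.I * ((n 0 : ℂ) * ((gt θ (1 / (2 * ((n 0 : ℝ) * θ + n 1)))).1 : ℝ)
      + (n 1 : ℂ) * ((gt θ (1 / (2 * ((n 0 : ℝ) * θ + n 1)))).2.1 : ℝ)))
      = 2 * Real.pi * Complex.I * (((1 / (2 * ((n 0 : ℝ) * θ + n 1)) : ℝ) : ℂ) * (((n 0 : ℝ) * θ + n 1 : ℝ) : ℂ)) := by
    simp only [gt, mk'_1, mk'_21]
    push_cast
    ring
  rw [h2]; exact h1

lemma map_smul_μH (g : Heis) : μH.map (fun p => g • p) = μH :=
  (measurePreserving_smul g μH).map_eq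

lemma integrable_tor (e : C(UnitAddTorus (Fin 2), ℂ)) : Integrable (fun p => e (tor p)) m :=
  integrable_of_cont (e.continuous.comp cont_tor)

lemma cont_integral_comp (m : Measure M) [IsProbabilityMeasure m] :
    Continuous (fun e : C(UnitAddTorus (Fin 2), ℂ) => ∫ p, e (tor p) ∂m) := by
  apply LipschitzWith.continuous (K := 1)
  apply LipschitzWith.of_dist_le_mul
  intro e e'
  rw [NNReal.coe_one, one_mul, dist_eq_norm, dist_eq_norm,
    ← integral_sub (integrable_tor e) (integrable_tor e')]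
  refine (norm_integral_le_of_norm_le_const (C := ‖e - e'‖) ?_).trans ?_
  · refine Filter.Eventually.of_forall fun p => ?_
    exact (e - e').norm_coe_le_norm (tor p)
  · simp

/-- centre-invariant continuous functions have the same integral -/
lemma int_center (hθ : Irrational θ) (hm : ∀ t, m.map (nilflow θ t) = m)
    (E : C(M, ℂ)) (hE : ∀ c p, E (zc c • p) = E p) : ∫ p, E p ∂m = ∫ p, E p ∂μH := by
  obtain ⟨e, he⟩ := exists_factor E hE
  simp only [he]
  let S : Submodule ℂ C(UnitAddTorus (Fin 2), ℂ) :=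
    { carrier := {e | ∫ p, e (tor p) ∂m = ∫ p, e (tor p) ∂μH}
      add_mem' := by
        intro a b ha hb
        simp only [Set.mem_ofPred_eq, ContinuousMap.add_apply] at ha hb ⊢
        rw [integral_add (integrable_tor a) (integrable_tor b),
          integral_add (integrable_tor a) (integrable_tor b), ha, hb]
      zero_mem' := by simp
      smul_mem' := by
        intro c a ha
        simp only [Set.mem_ofPred_eq, ContinuousMap.smul_apply, smul_eq_mul] at ha ⊢
        rw [integral_const_mul, integral_const_mul, ha] }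
  have hScl : IsClosed (S : Set C(UnitAddTorus (Fin 2), ℂ)) :=
    isClosed_eq (cont_integral_comp m) (cont_integral_comp μH)
  have hsub : Submodule.span ℂ (Set.range (UnitAddTorus.mFourier (d := Fin 2))) ≤ S := by
    rw [Submodule.span_le]
    rintro _ ⟨n, rfl⟩
    show ∫ p, UnitAddTorus.mFourier n (tor p) ∂m = ∫ p, UnitAddTorus.mFourier n (tor p) ∂μH
    by_cases hn : n = 0
    · subst hn
      simp [UnitAddTorus.mFourier_zero]
    · rw [int_char_flow hθ hm n hn, int_char_flow hθ (fun t => map_smul_μH _) n hn]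
  have htop : (⊤ : Submodule ℂ C(UnitAddTorus (Fin 2), ℂ)) ≤ S := by
    rw [← UnitAddTorus.span_mFourier_closure_eq_top]
    exact Submodule.topologicalClosure_minimal _ hsub hScl
  exact htop (Submodule.mem_top : e ∈ _)

end

end Pool.Agent.R515.NF
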