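import Pool.Agent.R515.NF.Tor

/-!
Unique ergodicity of the Heisenberg nilflow (MP_442888_an).
-/

open MeasureTheory Topology Filter Set
open scoped ComplexConjugate

namespace Pool.Agent.R515.NF

open Heis

/-- uniform continuity of the action near the identity -/
lemma unif_small (F : C(M, ℂ)) {δ : ℝ} (hδ : 0 < δ) :
    ∀ᶠ g in 𝓝 (1 : Heis), ∀ q : M, ‖F (g • q) - F q‖ < δ := by
  have h := (isCompact_univ : IsCompact (Set.univ : Set M)).eventually_forall_of_forall_eventually
    (x₀ := (1 : Heis)) (P := fun g q => ‖F (g • q) - F q‖ < δ) (by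
      intro q _
      have hc : Continuous (fun z : Heis × M => ‖F (z.1 • z.2) - F z.2‖) := by fun_prop
      have h1 := hc.tendsto ((1 : Heis), q)
      simp only [one_smul, sub_self, norm_zero] at h1
      exact h1.eventually_lt_const hδ)
  filter_upwards [h] with g hg q
  exact hg q trivial

/-- `e(x) = exp(2π i x)` -/
noncomputable def ee (x : ℝ) : ℂ := Complex.exp (2 * Real.pi * Complex.I * x)

lemma ee_add (x y : ℝ) : ee (x + y) = ee x * ee y := by
  unfold ee; rw [← Complex.exp_add]; congr 1; push_cast; ring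

lemma ee_zero : ee 0 = 1 := by simp [ee]

lemma ee_int (n : ℤ) : ee n = 1 := by
  unfold ee
  rw [show 2 * Real.pi * Complex.I * ((n : ℝ) : ℂ) = n * (2 * Real.pi * Complex.I) by push_cast; ring]
  exact Complex.exp_int_mul_two_pi_mul_I n

lemma norm_ee (x : ℝ) : ‖ee x‖ = 1 := by
  unfold ee
  rw [show 2 * Real.pi * Complex.I * (x : ℂ) = ((2 * Real.pi * x : ℝ) : ℂ) * Complex.I by push_cast; ring]
  exact Complex.norm_exp_ofReal_mul_I _

lemma cont_ee : Continuous ee := by unfold ee; fun_prop

lemma ee_half : ee (1 / 2) = -1 := by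
  unfold ee
  rw [show 2 * Real.pi * Complex.I * ((1 / 2 : ℝ) : ℂ) = Real.pi * Complex.I by push_cast; ring]
  exact Complex.exp_pi_mul_I

lemma ee_mul_conj (x : ℝ) : ee x * conj (ee x) = 1 := by
  rw [Complex.mul_conj, Complex.normSq_eq_norm_sq, norm_ee]; norm_num

section
variable {θ : ℝ} {m : Measure M} [IsProbabilityMeasure m]

/-- correlation decay for functions of non-zero vertical frequency -/
lemma corr_small (hθ : Irrational θ) (hm : ∀ t, m.map (nilflow θ t) = m)
    (F : C(M, ℂ)) (k : ℤ) (hk : k ≠ 0) (hF : ∀ c p, F (zc c • p) = ee (k * c) * F p)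
    {δ : ℝ} (hδ : 0 < δ) :
    ∃ T : ℝ, 0 < T ∧ ∀ t, T ≤ t → ‖∫ p, F (gt θ t • p) * conj (F p) ∂m‖ ≤ δ := by
  set B := ‖F‖ + 1 with hB
  have hB0 : 0 < B := by positivity
  have hFB : ∀ p, ‖F p‖ ≤ B := fun p => (F.norm_coe_le_norm p).trans (by linarith)
  have h1 := unif_small F (δ := δ / B) (by positivity)
  have ht : Tendsto (fun t : ℝ => sx (1 / (2 * k * t))) atTop (𝓝 1) := by
    have h2 : Tendsto (fun t : ℝ => 1 / (2 * (k : ℝ) * t)) atTop (𝓝 0) := by
      have h3 : Tendsto (fun t : ℝ => t⁻¹) atTop (𝓝 0) := tendsto_inv_atTop_zero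
      have h4 := h3.const_mul (2 * (k : ℝ))⁻¹
      rw [mul_zero] at h4
      refine h4.congr fun t => ?_
      ring
    have h5 := (cont_sx.tendsto 0).comp h2
    have h6 : sx 0 = 1 := by apply Heis.ext' <;> simp [sx]
    rw [h6] at h5
    exact h5
  obtain ⟨T, hT⟩ := eventually_atTop.mp (ht.eventually h1)
  refine ⟨max T 1, by positivity, ?_⟩
  intro t htT
  have htT' : T ≤ t := (le_max_left _ _).trans htT
  have ht0 : 0 < t := lt_of_lt_of_le one_pos ((le_max_right _ _).trans htT)
  set s := sx (1 / (2 * k * t)) with hs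
  have hsm : ∀ q, ‖F (s • q) - F q‖ < δ / B := hT t htT'
  let E : C(M, ℂ) := ⟨fun p => F (gt θ t • p) * conj (F p), by fun_prop⟩
  have hE : ∀ c p, E (zc c • p) = E p := by
    intro c p
    show F (gt θ t • zc c • p) * conj (F (zc c • p)) = F (gt θ t • p) * conj (F p)
    have : gt θ t • zc c • p = zc c • gt θ t • p := by
      rw [smul_smul, smul_smul, zc_comm]
    rw [this, hF, hF, map_mul]
    calc ee (k * c) * F (gt θ t • p) * (conj (ee (k * c)) * conj (F p))
        = (ee (k * c) * conj (ee (k * c))) * (F (gt θ t • p) * conj (F p)) := by ring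
      _ = _ := by rw [ee_mul_conj, one_mul]
  let E' : C(M, ℂ) := ⟨fun p => E (s • p), by fun_prop⟩
  have hE' : ∀ c p, E' (zc c • p) = E' p := by
    intro c p
    show E (s • zc c • p) = E (s • p)
    have : s • zc c • p = zc c • s • p := by rw [smul_smul, smul_smul, zc_comm]
    rw [this, hE]
  have h2 : ∫ p, E (s • p) ∂m = ∫ p, E p ∂m := by
    have a1 := int_center hθ hm E' hE'
    have a2 := int_center hθ hm E hE
    have a3 : ∫ p, E (s • p) ∂μH = ∫ p, E p ∂μH := int_smul (map_smul_μH s) E.continuous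
    rw [a2, ← a3]; exact a1
  have h3 : ∀ p, E (s • p) = - (F (s • gt θ t • p) * conj (F (s • p))) := by
    intro p
    show F (gt θ t • s • p) * conj (F (s • p)) = _
    have e1 : gt θ t • s • p = zc (t * (1 / (2 * k * t))) • s • gt θ t • p := by
      rw [smul_smul, smul_smul, smul_smul, hs, gt_sx]
      simp only [mul_assoc]
    rw [e1, hF]
    have e2 : (k : ℝ) * (t * (1 / (2 * k * t))) = 1 / 2 := by
      have : (k : ℝ) ≠ 0 := by exact_mod_cast hk
      field_simp
    rw [e2, ee_half]; ring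
  have h4 : 2 * ∫ p, E p ∂m = ∫ p, (E p - F (s • gt θ t • p) * conj (F (s • p))) ∂m := by
    have i1 : Integrable (fun p => E p) m := integrable_of_cont E.continuous
    have i2 : Integrable (fun p => F (s • gt θ t • p) * conj (F (s • p))) m :=
      integrable_of_cont (by fun_prop)
    rw [integral_sub i1 i2]
    have h5 : ∫ p, E (s • p) ∂m = - ∫ p, F (s • gt θ t • p) * conj (F (s • p)) ∂m := by
      rw [← integral_neg]
      exact integral_congr_ae (Filter.Eventually.of_forall h3)
    rw [h2] at h5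
    rw [two_mul]
    nth_rw 2 [h5]
    ring
  have h5 : ‖∫ p, (E p - F (s • gt θ t • p) * conj (F (s • p))) ∂m‖ ≤ 2 * δ := by
    refine (norm_integral_le_of_norm_le_const (C := 2 * δ) ?_).trans (by simp)
    refine Filter.Eventually.of_forall fun p => ?_
    have e1 : E p - F (s • gt θ t • p) * conj (F (s • p))
        = F (gt θ t • p) * (conj (F p) - conj (F (s • p)))
          + (F (gt θ t • p) - F (s • gt θ t • p)) * conj (F (s • p)) := by
      show F (gt θ t • p) * conj (F p) - _ = _
      ring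
    rw [e1]
    have e2 : ‖conj (F p) - conj (F (s • p))‖ ≤ δ / B := by
      rw [← map_sub, RCLike.norm_conj, norm_sub_rev]; exact (hsm p).le
    have e3 : ‖F (gt θ t • p) - F (s • gt θ t • p)‖ ≤ δ / B := by
      rw [norm_sub_rev]; exact (hsm _).le
    calc _ ≤ ‖F (gt θ t • p) * (conj (F p) - conj (F (s • p)))‖
          + ‖(F (gt θ t • p) - F (s • gt θ t • p)) * conj (F (s • p))‖ := norm_add_le _ _
      _ ≤ B * (δ / B) + (δ / B) * B := by
          rw [norm_mul, norm_mul, RCLike.norm_conj]
          gcongr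
          · exact hFB _
          · exact hFB _
      _ = 2 * δ := by field_simp; ring
  have h6 : ‖2 * ∫ p, E p ∂m‖ ≤ 2 * δ := by rw [h4]; exact h5
  rw [norm_mul] at h6
  have h7 : ‖(2 : ℂ)‖ = 2 := by simp
  rw [h7] at h6
  have h8 : ‖∫ p, E p ∂m‖ ≤ δ := by linarith
  exact h8

lemma norm_sq_int_le {f : M → ℂ} (hf : Continuous f) :
    ‖∫ p, f p ∂m‖ ^ 2 ≤ ∫ p, ‖f p‖ ^ 2 ∂m := by
  set L := ∫ p, ‖f p‖ ∂m with hL
  have h1 : ‖∫ p, f p ∂m‖ ≤ L := norm_integral_le_integral_norm _
  have i1 : Integrable (fun p => ‖f p‖) m := (integrable_of_cont hf).norm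
  have i2 : Integrable (fun p => ‖f p‖ ^ 2) m := by
    have := integrable_of_cont (m := m) (f := fun p => ((‖f p‖ ^ 2 : ℝ) : ℂ)) (by fun_prop)
    exact_mod_cast this.re
  have h2 : 0 ≤ ∫ p, (‖f p‖ - L) ^ 2 ∂m := integral_nonneg fun p => sq_nonneg _
  have h3 : ∫ p, (‖f p‖ - L) ^ 2 ∂m = ∫ p, ‖f p‖ ^ 2 ∂m - L ^ 2 := by
    have : (fun p => (‖f p‖ - L) ^ 2) = fun p => (‖f p‖ ^ 2 - 2 * L * ‖f p‖) + L ^ 2 := by
      funext p; ring
    have i3 : Integrable (fun p => ‖f p‖ ^ 2 - 2 * L * ‖f p‖) m := i2.sub (i1.const_mul _)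
    rw [this, integral_add i3 (integrable_const _),
      integral_sub i2 (i1.const_mul _), integral_const_mul]
    simp only [integral_const, probReal_univ, smul_eq_mul, one_mul]
    rw [← hL]; ring
  have h4 : 0 ≤ ‖∫ p, f p ∂m‖ := norm_nonneg _
  nlinarith

/-- functions of non-zero vertical frequency have integral zero -/
lemma int_vert_zero (hθ : Irrational θ) (hm : ∀ t, m.map (nilflow θ t) = m)
    (F : C(M, ℂ)) (k : ℤ) (hk : k ≠ 0) (hF : ∀ c p, F (zc c • p) = ee (k * c) * F p) :
    ∫ p, F p ∂m = 0 := by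
  have key : ∀ δ : ℝ, 0 < δ → ∀ H : ℕ, 0 < H →
      (H:ℝ)^2 * ‖∫ p, F p ∂m‖ ^ 2 ≤ H * ‖F‖ ^ 2 + (H:ℝ) ^ 2 * δ := by
    intro δ hδ H hH
    obtain ⟨T, hT0, hT⟩ := corr_small hθ hm F k hk hF hδ
    let f : ℕ → M → ℂ := fun h p => F (gt θ (h * T) • p)
    have hfc : ∀ h, Continuous (f h) := fun h => by
      show Continuous (fun p => F (gt θ (h * T) • p))
      fun_prop
    have hfint : ∀ h, ∫ p, f h p ∂m = ∫ p, F p ∂m := fun h => int_smul (hm _) F.continuous
    let S : M → ℂ := fun p => ∑ h ∈ Finset.range H, f h p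
    have hSc : Continuous S := continuous_finsetSum _ fun h _ => hfc h
    have hSint : ∫ p, S p ∂m = H * ∫ p, F p ∂m := by
      show ∫ p, ∑ h ∈ Finset.range H, f h p ∂m = _
      rw [integral_finsetSum _ (fun h _ => integrable_of_cont (hfc h))]
      simp [hfint]
    have hcorr : ∀ h h' : ℕ, ‖∫ p, f h p * conj (f h' p) ∂m‖ ≤ if h = h' then ‖F‖^2 else δ := by
      -- case `h' ≤ h`
      have hle : ∀ h h' : ℕ, h' < h → ‖∫ p, f h p * conj (f h' p) ∂m‖ ≤ δ := by
        intro h h' hlt
        have e1 : ∫ p, f h p * conj (f h' p) ∂m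
            = ∫ p, F (gt θ ((h - h' : ℕ) * T) • p) * conj (F p) ∂m := by
          have := int_smul (m := m) (hm (h' * T))
            (f := fun p => F (gt θ ((h - h' : ℕ) * T) • p) * conj (F p)) (by fun_prop)
          rw [← this]
          refine integral_congr_ae (Filter.Eventually.of_forall fun p => ?_)
          show F (gt θ (h * T) • p) * conj (F (gt θ (h' * T) • p))
            = F (gt θ ((h - h' : ℕ) * T) • gt θ (h' * T) • p) * conj (F (gt θ (h' * T) • p))
          rw [smul_smul, ← gt_add]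
          congr 4
          rw [Nat.cast_sub hlt.le]; ring
        rw [e1]
        apply hT
        have : (1:ℝ) ≤ ((h - h' : ℕ) : ℝ) := by
          have : 1 ≤ h - h' := by omega
          exact_mod_cast this
        nlinarith
      intro h h'
      split_ifs with heq
      · subst heq
        refine (norm_integral_le_of_norm_le_const (C := ‖F‖^2) ?_).trans (by simp)
        refine Filter.Eventually.of_forall fun p => ?_
        rw [norm_mul, RCLike.norm_conj]
        have := F.norm_coe_le_norm (gt θ (h * T) • p)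
        have h0 := norm_nonneg (f h p)
        show ‖f h p‖ * ‖f h p‖ ≤ _
        have h1 : ‖f h p‖ ≤ ‖F‖ := this
        nlinarith
      · rcases lt_or_gt_of_ne heq with hlt | hlt
        · have e2 : ∫ p, f h p * conj (f h' p) ∂m = conj (∫ p, f h' p * conj (f h p) ∂m) := by
            rw [← integral_conj]
            refine integral_congr_ae (Filter.Eventually.of_forall fun p => ?_)
            show f h p * conj (f h' p) = conj (f h' p * conj (f h p))
            rw [map_mul, Complex.conj_conj]; ring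
          rw [e2, RCLike.norm_conj]
          exact hle h' h hlt
        · exact hle h h' hlt
    have hS2 : ∫ p, ‖S p‖ ^ 2 ∂m ≤ H * ‖F‖ ^ 2 + (H:ℝ) ^ 2 * δ := by
      have e1 : ((∫ p, ‖S p‖ ^ 2 ∂m : ℝ) : ℂ)
          = ∑ h ∈ Finset.range H, ∑ h' ∈ Finset.range H, ∫ p, f h p * conj (f h' p) ∂m := by
        rw [← integral_complex_ofReal]
        have e2 : ∀ p, ((‖S p‖ ^ 2 : ℝ) : ℂ)
            = ∑ h ∈ Finset.range H, ∑ h' ∈ Finset.range H, f h p * conj (f h' p) := by
          intro p
          rw [← Complex.normSq_eq_norm_sq, ← Complex.mul_conj]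
          show (∑ h ∈ Finset.range H, f h p) * conj (∑ h ∈ Finset.range H, f h p) = _
          rw [map_sum, Finset.sum_mul_sum]
        simp only [e2]
        rw [integral_finsetSum _ (fun h _ => integrable_of_cont (by
          refine continuous_finsetSum _ fun h' _ => ?_
          exact (hfc h).mul (Complex.continuous_conj.comp (hfc h'))))]
        refine Finset.sum_congr rfl fun h _ => ?_
        have i3 : ∀ h' ∈ Finset.range H, Integrable (fun p => f h p * conj (f h' p)) m :=
          fun h' _ => integrable_of_cont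
            ((hfc h).mul (Complex.continuous_conj.comp (hfc h')))
        rw [integral_finsetSum _ i3]
      have e3 : ∫ p, ‖S p‖ ^ 2 ∂m ≤ ‖((∫ p, ‖S p‖ ^ 2 ∂m : ℝ) : ℂ)‖ := by
        rw [Complex.norm_real]; exact le_abs_self _
      refine e3.trans ?_
      rw [e1]
      refine (norm_sum_le _ _).trans ?_
      refine (Finset.sum_le_sum fun h _ => (norm_sum_le _ _).trans
        (Finset.sum_le_sum fun h' _ => hcorr h h')).trans ?_
      have e4 : ∀ h ∈ Finset.range H, ∑ h' ∈ Finset.range H, (if h = h' then ‖F‖^2 else δ)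
          ≤ ‖F‖^2 + H * δ := by
        intro h hh
        rw [← Finset.add_sum_erase _ _ hh]
        simp only [if_true]
        have : ∑ x ∈ (Finset.range H).erase h, (if h = x then ‖F‖ ^ 2 else δ)
            = ∑ x ∈ (Finset.range H).erase h, δ := by
          refine Finset.sum_congr rfl fun x hx => ?_
          rw [if_neg (Finset.ne_of_mem_erase hx).symm]
        rw [this, Finset.sum_const, nsmul_eq_mul, Finset.card_erase_of_mem hh, Finset.card_range]
        have : ((H - 1 : ℕ) : ℝ) ≤ H := by exact_mod_cast Nat.sub_le _ _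
        gcongr
      refine (Finset.sum_le_sum e4).trans ?_
      rw [Finset.sum_const, Finset.card_range, nsmul_eq_mul]
      nlinarith
    have h1 := norm_sq_int_le (m := m) hSc
    rw [hSint, norm_mul, mul_pow] at h1
    have h2 : ‖(H : ℂ)‖ = H := by simp
    rw [h2] at h1
    exact h1.trans hS2
  by_contra hne
  have hpos : 0 < ‖∫ p, F p ∂m‖ ^ 2 := by positivity
  set I := ‖∫ p, F p ∂m‖ ^ 2 with hI
  obtain ⟨H, hH⟩ := exists_nat_gt (2 * ‖F‖ ^ 2 / I)
  have hH0 : 0 < H := by
    rcases Nat.eq_zero_or_pos H with h | h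
    · rw [h] at hH
      have : 0 ≤ 2 * ‖F‖ ^ 2 / I := by positivity
      simp at hH; linarith
    · exact h
  have h1 := key (I / 2) (by positivity) H hH0
  have hHr : (0:ℝ) < H := by exact_mod_cast hH0
  rw [div_lt_iff₀ hpos] at hH
  nlinarith

end

end Pool.Agent.R515.NF
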