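import Pool.Agent.R515.NF.UE

/-!
Unique ergodicity of the Heisenberg nilflow, conclusion (MP_442888_an).
-/

open MeasureTheory Topology Filter Set
open scoped ComplexConjugate

namespace Pool.Agent.R515.NF

open Heis

/-- vertical Fourier component -/
noncomputable def vF (F : M → ℂ) (k : ℤ) (p : M) : ℂ :=
  ∫ c in (0:ℝ)..1, F (zc c • p) * ee (-(k * c))

lemma cont_vF (F : C(M, ℂ)) (k : ℤ) : Continuous (vF F k) := by
  unfold vF
  apply intervalIntegral.continuous_parametric_intervalIntegral_of_continuous'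
  have h1 := cont_zc
  have h2 := cont_ee
  show Continuous (fun x : M × ℝ => F (zc x.2 • x.1) * ee (-(k * x.2)))
  fun_prop

lemma zc_periodic (c : ℝ) (p : M) : zc (c + 1) • p = zc c • p := by
  rw [zc_add, mul_smul, zc_one_smul]

lemma vF_shift (F : M → ℂ) (k : ℤ) (c : ℝ) (p : M) :
    vF F k (zc c • p) = ee (k * c) * vF F k p := by
  have hper : Function.Periodic (fun x : ℝ => F (zc x • p) * ee (-(k * x))) 1 := by
    intro x
    simp only
    rw [zc_periodic]
    congr 1
    rw [show -((k:ℝ) * (x + 1)) = -(k * x) + ((-k : ℤ) : ℝ) by push_cast; ring, ee_add, ee_int, mul_one]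
  have h1 : vF F k (zc c • p) = ee (k * c) * ∫ x in (0:ℝ)..1, F (zc (x + c) • p) * ee (-(k * (x + c))) := by
    unfold vF
    rw [← intervalIntegral.integral_const_mul]
    refine intervalIntegral.integral_congr fun x _ => ?_
    rw [smul_smul, ← zc_add]
    have : ee (-(k * x)) = ee (k * c) * ee (-(k * (x + c))) := by
      rw [← ee_add]; congr 1; ring
    rw [this]; ring
  rw [h1]
  congr 1
  have h2 := intervalIntegral.integral_comp_add_right
    (f := fun x : ℝ => F (zc x • p) * ee (-(k * x))) (a := 0) (b := 1) c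
  rw [h2, zero_add, add_comm (1:ℝ) c]
  have h3 := hper.intervalIntegral_add_eq c 0
  rw [h3, zero_add]
  rfl

lemma vF_zero (F : M → ℂ) (p : M) : vF F 0 p = ∫ c in (0:ℝ)..1, F (zc c • p) := by
  unfold vF
  refine intervalIntegral.integral_congr fun x _ => ?_
  simp [ee_zero]

section
variable {θ : ℝ} {m : Measure M} [IsProbabilityMeasure m]

lemma int_vF (F : C(M, ℂ)) (k : ℤ) :
    ∫ p, vF F k p ∂m = ∫ c in (0:ℝ)..1, (∫ p, F (zc c • p) ∂m) * ee (-(k * c)) := by
  unfold vF
  have h1 := cont_zc
  have h2 := cont_ee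
  simp only [intervalIntegral.integral_of_le (zero_le_one' ℝ)]
  rw [integral_integral_swap]
  · refine integral_congr_ae (Filter.Eventually.of_forall fun c => ?_)
    simp only
    rw [integral_mul_const]
  · obtain ⟨C, hC⟩ : ∃ C, ∀ p, ‖F p‖ ≤ C := ⟨_, F.norm_coe_le_norm⟩
    apply Integrable.of_bound (C := C)
    · apply Continuous.aestronglyMeasurable
      show Continuous (fun x : M × ℝ => F (zc x.2 • x.1) * ee (-(k * x.2)))
      fun_prop
    · refine Filter.Eventually.of_forall fun x => ?_
      show ‖F (zc x.2 • x.1) * ee (-(k * x.2))‖ ≤ C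
      rw [norm_mul, norm_ee, mul_one]; exact hC _

lemma cont_fc (F : C(M, ℂ)) : Continuous (fun c : ℝ => ∫ p, F (zc c • p) ∂m) := by
  have h1 := cont_zc
  refine continuous_of_dominated (bound := fun _ => ‖F‖) ?_ ?_ (integrable_const _) ?_
  · intro c
    apply Continuous.aestronglyMeasurable
    fun_prop
  · intro c
    exact Filter.Eventually.of_forall fun p => F.norm_coe_le_norm _
  · refine Filter.Eventually.of_forall fun p => ?_
    fun_prop

local instance fact01' : Fact ((0:ℝ) < 1) := ⟨one_pos⟩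

lemma int_eq_vF_zero (hθ : Irrational θ) (hm : ∀ t, m.map (nilflow θ t) = m) (F : C(M, ℂ)) :
    ∫ p, F p ∂m = ∫ p, vF F 0 p ∂m := by
  set f : ℝ → ℂ := fun c => ∫ p, F (zc c • p) ∂m with hf
  have hfc : Continuous f := cont_fc F
  have hper : Function.Periodic f 1 := by
    intro c
    simp only [hf]
    simp only [zc_periodic]
  let g : C(AddCircle (1:ℝ), ℂ) := ⟨hper.lift, Continuous.quotient_liftOn' hfc _⟩
  have hg : ∀ c : ℝ, g (c : AddCircle (1:ℝ)) = f c := fun c => rfl
  have hcoef : ∀ k : ℤ, fourierCoeff g k = ∫ p, vF F k p ∂m := by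
    intro k
    rw [fourierCoeff_eq_intervalIntegral _ _ 0, int_vF]
    simp only [zero_add, div_one, one_smul]
    refine intervalIntegral.integral_congr fun c _ => ?_
    rw [hg, fourier_coe_apply, smul_eq_mul, mul_comm]
    congr 1
    unfold ee
    congr 1
    push_cast
    ring
  have hz : ∀ k : ℤ, k ≠ 0 → fourierCoeff g k = 0 := by
    intro k hk
    rw [hcoef]
    exact int_vert_zero hθ hm ⟨vF F k, cont_vF F k⟩ k hk (fun c p => vF_shift F k c p)
  have hsum : HasSum (fun i => fourierCoeff g i • fourier i (0 : AddCircle (1:ℝ))) (g 0) := by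
    apply has_pointwise_sum_fourier_series_of_summable
    exact summable_of_ne_finset_zero (s := {0}) (by
      intro k hk
      exact hz k (by simpa using hk))
  have hsingle : HasSum (fun i => fourierCoeff g i • fourier i (0 : AddCircle (1:ℝ)))
      (fourierCoeff g 0 • fourier 0 (0 : AddCircle (1:ℝ))) := by
    apply hasSum_single
    intro k hk
    rw [hz k hk, zero_smul]
  have h1 := hsum.unique hsingle
  rw [fourier_zero, smul_eq_mul, mul_one, hcoef] at h1
  rw [← h1]
  have h2 : g 0 = f 0 := hg 0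
  rw [h2]
  simp only [hf, zc_zero, one_smul]

/-- **Unique ergodicity** of the Heisenberg nilflow with irrational slope. -/
theorem unique_ergodic (hθ : Irrational θ) (hm : ∀ t, m.map (nilflow θ t) = m) : m = μH := by
  have hμ : ∀ t, μH.map (nilflow θ t) = μH := fun t => map_smul_μH _
  let _ : MetricSpace M := TopologicalSpace.metrizableSpaceMetric M
  apply ext_of_forall_integral_eq_of_IsFiniteMeasure
  intro f
  let F : C(M, ℂ) := ⟨fun p => (f p : ℂ), by fun_prop⟩
  have h0 : ∀ c p, vF F 0 (zc c • p) = vF F 0 p := by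
    intro c p
    rw [vF_shift]; simp [ee_zero]
  have h1 := int_eq_vF_zero hθ hm F
  have h2 := int_eq_vF_zero hθ hμ F
  have h3 := int_center hθ hm ⟨vF F 0, cont_vF F 0⟩ h0
  have h4 : ∫ p, F p ∂m = ∫ p, F p ∂μH := by
    rw [h1, h2]; exact h3
  have h5 : ((∫ p, f p ∂m : ℝ) : ℂ) = ((∫ p, f p ∂μH : ℝ) : ℂ) := by
    rw [← integral_complex_ofReal, ← integral_complex_ofReal]; exact h4
  exact_mod_cast h5

end

end Pool.Agent.R515.NF
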